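import Mathlib

/-!
# Local conditions for a step `A ≤ B` of a chain of subgroups
-/

set_option autoImplicit false

namespace Pool.Agent.VG

variable {G : Type} [Group G]

/-- The projection of coset spaces. -/
def prj {A B : Subgroup G} (h : A ≤ B) : G ⧸ A → G ⧸ B := Subgroup.quotientMapOfLE h

theorem prj_mk {A B : Subgroup G} (h : A ≤ B) (g : G) :
    prj h (g : G ⧸ A) = (g : G ⧸ B) := rfl

theorem prj_smul {A B : Subgroup G} (h : A ≤ B) (g : G) (x : G ⧸ A) :
    prj h (g • x) = g • prj h x := by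
  induction x using QuotientGroup.induction_on
  rfl

theorem prj_surj {A B : Subgroup G} (h : A ≤ B) (y : G ⧸ B) : ∃ x, prj h x = y := by
  induction y using QuotientGroup.induction_on with
  | H g => exact ⟨(g : G ⧸ A), rfl⟩

theorem prj_prj {A B C : Subgroup G} (h : A ≤ B) (h' : B ≤ C) (x : G ⧸ A) :
    prj h' (prj h x) = prj (h.trans h') x := by
  induction x using QuotientGroup.induction_on
  rfl

theorem prj_refl {A : Subgroup G} (h : A ≤ A) (x : G ⧸ A) : prj h x = x := by
  induction x using QuotientGroup.induction_on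
  rfl

/-- The invariant relation on `G ⧸ C` given by a set `T`. -/
def rl (C : Subgroup G) (T : Set (G ⧸ C)) (x y : G ⧸ C) : Prop :=
  ∃ g : G, x = (g : G ⧸ C) ∧ g⁻¹ • y ∈ T

theorem rl_smul (C : Subgroup G) (T : Set (G ⧸ C)) (u : G) (x y : G ⧸ C) :
    rl C T (u • x) (u • y) ↔ rl C T x y := by
  constructor
  · rintro ⟨g, h1, h2⟩
    refine ⟨u⁻¹ * g, ?_, ?_⟩
    · have h3 : x = u⁻¹ • ((g : G) : G ⧸ C) := by rw [← h1, inv_smul_smul]
      rw [h3]
      rfl
    · rw [mul_inv_rev, inv_inv, mul_smul]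
      exact h2
  · rintro ⟨g, h1, h2⟩
    refine ⟨u * g, ?_, ?_⟩
    · rw [h1]
      rfl
    · rw [mul_inv_rev, mul_smul, inv_smul_smul]
      exact h2

/-- **The local condition** for `A ≤ B`. There are a subgroup `C` of `A` of index at most `b` and
`b` invariant relations on `G ⧸ C` such that: a permutation of `G ⧸ C` over the identity of `G ⧸ A`
that preserves the relations is the identity; for every point `a` of `G ⧸ B` and every subgroup `K`
of its stabilizer there are `b` subsets of `G ⧸ C` such that every permutation that preserves the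
projections, the relations and the fibre over `a` and, on this fibre, the `K`-closures of the `b`
sets, moves every point of the fibre inside its `K`-orbit. -/
def Loc (b : ℕ) (A B : Subgroup G) : Prop :=
  ∃ (C : Subgroup G) (hC : C ≤ A) (hB : A ≤ B) (T : Fin b → Set (G ⧸ C)),
    C.relIndex A ≤ b ∧
    (∀ f' : Equiv.Perm (G ⧸ C), (∀ x, prj hC (f' x) = prj hC x) →
      (∀ k x y, rl C (T k) (f' x) (f' y) ↔ rl C (T k) x y) → ∀ x, f' x = x) ∧
    (∀ (a : G ⧸ B) (K : Subgroup G), (∀ g ∈ K, g • a = a) → ∃ S : Fin b → Set (G ⧸ C),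
      ∀ (f : Equiv.Perm (G ⧸ A)) (f' : Equiv.Perm (G ⧸ C)),
        (∀ x, prj hC (f' x) = f (prj hC x)) →
        (∀ k x y, rl C (T k) (f' x) (f' y) ↔ rl C (T k) x y) →
        (∀ x, prj hB x = a → prj hB (f x) = a) →
        (∀ k x, prj hB (prj hC x) = a →
          ((∃ g ∈ K, g • f' x ∈ S k) ↔ ∃ g ∈ K, g • x ∈ S k)) →
        ∀ x, prj hB x = a → ∃ g ∈ K, f x = g • x)

/-- Steps of index at most `b`. -/
theorem loc_index {b : ℕ} (hb : 0 < b) {A B : Subgroup G} (h : A ≤ B) (hAB : A.relIndex B ≤ b)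
    (h0 : A.relIndex B ≠ 0) : Loc b A B := by
  classical
  refine ⟨A, le_rfl, h, fun _ => ∅, ?_, ?_, ?_⟩
  · rw [Subgroup.relIndex_self]
    exact hb
  · intro f' hf _ x
    have := hf x
    rwa [prj_refl, prj_refl] at this
  · intro a K hK
    -- the fibre has at most `b` points
    have hsurj : ∃ c : Fin b → G ⧸ A, ∀ x, prj h x = a → ∃ k, c k = x := by
      induction a using QuotientGroup.induction_on with
      | H g0 =>
        have hfin : Finite (B ⧸ A.subgroupOf B) := by
          apply Nat.finite_of_card_ne_zero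
          exact h0
        have e : (B ⧸ A.subgroupOf B) ≃ Fin (Nat.card (B ⧸ A.subgroupOf B)) :=
          Finite.equivFin _
        let q : (B ⧸ A.subgroupOf B) → G ⧸ A := fun y =>
          g0 • Quotient.liftOn' y (fun z : B => ((z : G) : G ⧸ A)) (by
            intro z z' hz
            rw [QuotientGroup.leftRel_apply] at hz
            rw [QuotientGroup.eq]
            exact Subgroup.mem_subgroupOf.1 hz)
        have hc : Nat.card (B ⧸ A.subgroupOf B) ≤ b := hAB
        refine ⟨fun k => if hk : k.1 < Nat.card (B ⧸ A.subgroupOf B) then q (e.symm ⟨k.1, hk⟩)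
          else (g0 : G ⧸ A), fun x hx => ?_⟩
        induction x using QuotientGroup.induction_on with
        | H g =>
          rw [prj_mk, QuotientGroup.eq] at hx
          have hx' : g0⁻¹ * g ∈ B := by
            have := B.inv_mem hx
            rwa [mul_inv_rev, inv_inv] at this
          let z : B := ⟨g0⁻¹ * g, hx'⟩
          let k := e (z : B ⧸ A.subgroupOf B)
          refine ⟨⟨k.1, k.2.trans_le hc⟩, ?_⟩
          show (if hk : k.1 < Nat.card (B ⧸ A.subgroupOf B) then q (e.symm ⟨k.1, hk⟩)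
            else (g0 : G ⧸ A)) = _
          rw [dif_pos k.2]
          have h1 : e.symm ⟨k.1, k.2⟩ = (z : B ⧸ A.subgroupOf B) := by
            show e.symm (e _) = _
            rw [Equiv.symm_apply_apply]
          rw [h1]
          show g0 • ((z : G) : G ⧸ A) = _
          show ((g0 * (g0⁻¹ * g) : G) : G ⧸ A) = _
          rw [mul_inv_cancel_left]
    obtain ⟨c, hc⟩ := hsurj
    refine ⟨fun k => {c k}, fun f f' hff _ hfa hS x hx => ?_⟩
    obtain ⟨k, rfl⟩ := hc x hx
    have h1 := (hS k (c k) (by rw [prj_refl]; exact hx)).2 ⟨1, K.one_mem, by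
      rw [one_smul]; rfl⟩
    obtain ⟨g, hg, hg2⟩ := h1
    refine ⟨g⁻¹, K.inv_mem hg, ?_⟩
    have h2 : g • f' (c k) = c k := hg2
    have h3 := hff (c k)
    rw [prj_refl, prj_refl] at h3
    rw [← h3, eq_inv_smul_iff]
    exact h2

/-- Normal steps with `b` generators. -/
theorem loc_normal {b : ℕ} (hb : 0 < b) {A B : Subgroup G} (h : A ≤ B)
    (hn : ∀ g ∈ B, ∀ a ∈ A, g⁻¹ * a * g ∈ A) (s : Fin b → G) (hs : ∀ i, s i ∈ B)
    (hgen : B ≤ Subgroup.closure ((A : Set G) ∪ Set.range s)) : Loc b A B := by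
  classical
  have hnext : ∀ (k : Fin b) (g : G) (y : G ⧸ A),
      rl A {((s k : G) : G ⧸ A)} (g : G ⧸ A) y ↔ y = ((g * s k : G) : G ⧸ A) := by
    intro k g y
    constructor
    · rintro ⟨g', h1, h2⟩
      have h2' : g'⁻¹ • y = ((s k : G) : G ⧸ A) := h2
      rw [inv_smul_eq_iff] at h2'
      rw [h2']
      show ((g' * s k : G) : G ⧸ A) = _
      rw [QuotientGroup.eq] at h1 ⊢
      have h3 := hn (s k) (hs k) _ (A.inv_mem h1)
      have e : (g' * s k)⁻¹ * (g * s k) = (s k)⁻¹ * (g⁻¹ * g')⁻¹ * s k := by group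
      rw [e]
      exact h3
    · intro h1
      refine ⟨g, rfl, ?_⟩
      rw [h1]
      show ((g⁻¹ * (g * s k) : G) : G ⧸ A) = _
      rw [inv_mul_cancel_left]
  refine ⟨A, le_rfl, h, fun k => {((s k : G) : G ⧸ A)}, ?_, ?_, ?_⟩
  · rw [Subgroup.relIndex_self]
    exact hb
  · intro f' hf _ x
    have := hf x
    rwa [prj_refl, prj_refl] at this
  · intro a K hK
    obtain ⟨x0, hx0⟩ := prj_surj h a
    obtain ⟨g0, rfl⟩ := QuotientGroup.mk_surjective x0
    refine ⟨fun _ => {(g0 : G ⧸ A)}, fun f f' hff hT hfa hS x hx => ?_⟩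
    have hf : ∀ x, f' x = f x := by
      intro x
      have h3 := hff x
      rwa [prj_refl, prj_refl] at h3
    have h1 := (hS ⟨0, hb⟩ (g0 : G ⧸ A) (by rw [prj_refl]; exact hx0)).2 ⟨1, K.one_mem, by
      rw [one_smul]; rfl⟩
    obtain ⟨g, hg, hg2⟩ := h1
    have hg3 : f (g0 : G ⧸ A) = g⁻¹ • (g0 : G ⧸ A) := by
      rw [eq_inv_smul_iff, ← hf]
      exact hg2
    -- all cosets
    have key : ∀ w ∈ Subgroup.closure ((A : Set G) ∪ Set.range s),
        f ((g0 * w : G) : G ⧸ A) = g⁻¹ • ((g0 * w : G) : G ⧸ A) := by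
      intro w hw
      induction hw using Subgroup.closure_induction_right with
      | one => rw [mul_one, hg3]
      | mul_right x hx y hy ih =>
        rcases hy with hy | ⟨k, rfl⟩
        · have e : ((g0 * (x * y) : G) : G ⧸ A) = ((g0 * x : G) : G ⧸ A) := by
            rw [QuotientGroup.eq]
            have e2 : (g0 * (x * y))⁻¹ * (g0 * x) = y⁻¹ := by group
            rw [e2]
            exact A.inv_mem hy
          rw [e, ih]
        · have h4 := (hnext k (g0 * x) ((g0 * x * s k : G) : G ⧸ A)).2 rfl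
          rw [← hT, hf, hf, ih] at h4
          have h5 : g⁻¹ • ((g0 * x : G) : G ⧸ A) = ((g⁻¹ * (g0 * x) : G) : G ⧸ A) := rfl
          rw [h5, hnext] at h4
          rw [← mul_assoc, h4]
          show _ = ((g⁻¹ * (g0 * x * s k) : G) : G ⧸ A)
          rw [mul_assoc g⁻¹]
      | mul_inv_cancel x hx y hy ih =>
        rcases hy with hy | ⟨k, rfl⟩
        · have e : ((g0 * (x * y⁻¹) : G) : G ⧸ A) = ((g0 * x : G) : G ⧸ A) := by
            rw [QuotientGroup.eq]
            have e2 : (g0 * (x * y⁻¹))⁻¹ * (g0 * x) = y := by group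
            rw [e2]
            exact hy
          rw [e, ih]
        · have h4 := (hnext k (g0 * (x * (s k)⁻¹)) ((g0 * x : G) : G ⧸ A)).2 (by
            congr 1
            group)
          rw [← hT, hf, hf, ih] at h4
          obtain ⟨z, hz⟩ := QuotientGroup.mk_surjective (f ((g0 * (x * (s k)⁻¹) : G) : G ⧸ A))
          rw [← hz, hnext] at h4
          rw [← hz]
          have h5 : ((g⁻¹ * (g0 * x) : G) : G ⧸ A) = ((z * s k : G) : G ⧸ A) := h4
          rw [QuotientGroup.eq] at h5
          show ((z : G) : G ⧸ A) = ((g⁻¹ * (g0 * (x * (s k)⁻¹)) : G) : G ⧸ A)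
          rw [QuotientGroup.eq]
          have h6 := hn (s k)⁻¹ (B.inv_mem (hs k)) _ (A.inv_mem h5)
          have e : z⁻¹ * (g⁻¹ * (g0 * (x * (s k)⁻¹))) =
              (s k)⁻¹⁻¹ * ((g⁻¹ * (g0 * x))⁻¹ * (z * s k))⁻¹ * (s k)⁻¹ := by group
          rw [e]
          exact h6
    obtain ⟨u, rfl⟩ := QuotientGroup.mk_surjective x
    refine ⟨g⁻¹, K.inv_mem hg, ?_⟩
    have hu : g0⁻¹ * u ∈ B := by
      rw [← hx0, prj_mk, prj_mk, QuotientGroup.eq] at hx
      have := B.inv_mem hx
      rwa [mul_inv_rev, inv_inv] at this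
    have h7 := key (g0⁻¹ * u) (hgen hu)
    rwa [mul_inv_cancel_left] at h7

end Pool.Agent.VG
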