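import Pool.Agent.Lib_helper73.VG.Carlitz
import Pool.Agent.Lib_helper73.VG.Loc

/-!
# The local condition for steps on which the group acts as a subgroup of `AGL(1,p)`
-/

set_option autoImplicit false

namespace Pool.Agent.VG

theorem z2_cases (x : ZMod 2) : x = 0 ∨ x = 1 := by
  revert x
  decide

theorem z2_ne : (0 : ZMod 2) ≠ 1 := by decide

theorem z2_eq : (0 : ZMod 2) = 1 * 1 + 1 := by decide

section field

variable {p : ℕ} [hp : Fact p.Prime]

/-- permutations which respect nonzero squares of differences up to twists are affine -/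
theorem affine_of_squares {π : ZMod p → ZMod p} (hπ : Function.Bijective π) {ε : ZMod p → ZMod p}
    (hε : ∀ i, ε i ≠ 0)
    (h : ∀ i j, (∃ s, s ≠ 0 ∧ IsSquare s ∧ j = i + s) ↔
      ∃ s, s ≠ 0 ∧ IsSquare s ∧ π j = π i + ε i * s) :
    ∃ a b : ZMod p, ∀ x, π x = a * x + b := by
  classical
  rcases hp.out.eq_two_or_odd' with h2 | hodd
  · subst h2
    have h01 : ∀ x : ZMod 2, x = 0 ∨ x = 1 := z2_cases
    have hne : π 0 ≠ π 1 := fun e => absurd (hπ.1 e) z2_ne
    refine ⟨1, π 0, fun x => ?_⟩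
    rcases h01 x with rfl | rfl
    · ring
    · rcases h01 (π 0) with h0 | h0 <;> rcases h01 (π 1) with h1 | h1
      · exact absurd (h0.trans h1.symm) hne
      · rw [h0, h1]; ring
      · rw [h0, h1]; exact z2_eq
      · exact absurd (h0.trans h1.symm) hne
  · set q := quadraticChar (ZMod p) with hq
    have hp2 : p ≠ 2 := by
      rintro rfl
      exact absurd hodd (by decide)
    have hchar : ringChar (ZMod p) ≠ 2 := by
      rw [ZMod.ringChar_zmod_n]
      exact hp2
    have hdich : ∀ x : ZMod p, x ≠ 0 → q x = 1 ∨ q x = -1 := fun x hx =>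
      quadraticChar_dichotomy hx
    have hsq : ∀ x : ZMod p, (∃ s, s ≠ 0 ∧ IsSquare s ∧ x = s) ↔ q x = 1 := by
      intro x
      constructor
      · rintro ⟨s, h1, h2, rfl⟩
        exact (quadraticChar_one_iff_isSquare h1).2 h2
      · intro h1
        have hx : x ≠ 0 := by
          rintro rfl
          rw [hq, quadraticChar_zero] at h1
          exact absurd h1 (by decide)
        exact ⟨x, hx, (quadraticChar_one_iff_isSquare hx).1 h1, rfl⟩
    have h1 : ∀ i j, q (j - i) = q (ε i) * q (π j - π i) := by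
      intro i j
      by_cases hij : i = j
      · subst hij
        rw [sub_self, sub_self, hq, quadraticChar_zero, mul_zero]
      · have hji : j - i ≠ 0 := sub_ne_zero.2 (Ne.symm hij)
        have hπji : π j - π i ≠ 0 := sub_ne_zero.2 fun e => hij (hπ.1 e).symm
        have ha : q (j - i) = 1 ↔ q (ε i) * q (π j - π i) = 1 := by
          rw [← hsq, show (∃ s, s ≠ 0 ∧ IsSquare s ∧ j - i = s) ↔
            ∃ s, s ≠ 0 ∧ IsSquare s ∧ j = i + s from by
              constructor
              · rintro ⟨s, a1, a2, a3⟩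
                exact ⟨s, a1, a2, by rw [← a3]; ring⟩
              · rintro ⟨s, a1, a2, a3⟩
                exact ⟨s, a1, a2, by rw [a3]; ring⟩, h]
          have h3 : q (ε i) * q (π j - π i) = q ((ε i)⁻¹ * (π j - π i)) := by
            rw [map_mul]
            congr 1
            have h4 : q (ε i) * q (ε i)⁻¹ = 1 := by
              rw [← map_mul, mul_inv_cancel₀ (hε i), map_one]
            rcases hdich _ (hε i) with h5 | h5 <;> rw [h5] at h4 ⊢ <;> omega
          rw [h3, ← hsq]
          constructor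
          · rintro ⟨s, a1, a2, a3⟩
            refine ⟨s, a1, a2, ?_⟩
            rw [a3, add_sub_cancel_left, ← mul_assoc, inv_mul_cancel₀ (hε i), one_mul]
          · rintro ⟨s, a1, a2, a3⟩
            refine ⟨s, a1, a2, ?_⟩
            rw [← a3, ← mul_assoc, mul_inv_cancel₀ (hε i), one_mul]
            ring
        rcases hdich _ hji with h3 | h3 <;> rcases hdich _ hπji with h4 | h4 <;>
          rcases hdich _ (hε i) with h5 | h5 <;> rw [h3, h4, h5] at ha <;> rw [h3, h4, h5] <;>
          revert ha <;> decide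
    have h2 : ∀ i, q (ε i) = q (ε 0) := by
      intro i
      by_cases hi : i = 0
      · rw [hi]
      · have hπi : π i - π 0 ≠ 0 := sub_ne_zero.2 fun e => hi (hπ.1 e)
        have a1 := h1 0 i
        have a2 := h1 i 0
        have a3 : q (0 - i) = q (-1) * q (i - 0) := by
          rw [← map_mul]
          congr 1
          ring
        have a4 : q (π 0 - π i) = q (-1) * q (π i - π 0) := by
          rw [← map_mul]
          congr 1
          ring
        have hm : (-1 : ZMod p) ≠ 0 := neg_ne_zero.2 one_ne_zero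
        rw [a3, a4, a1] at a2
        rcases hdich _ hm with b1 | b1 <;> rcases hdich _ hπi with b2 | b2 <;>
          rcases hdich _ (hε i) with b3 | b3 <;> rcases hdich _ (hε 0) with b4 | b4 <;>
          rw [b1, b2, b3, b4] at a2 <;> rw [b3, b4] <;> revert a2 <;> decide
    have hcard := quadraticChar_eq_pow_of_char_ne_two' (F := ZMod p) hchar
    rw [ZMod.card] at hcard
    have hr : 2 * (p / 2) = p - 1 := by
      obtain ⟨k, hk⟩ := hodd
      omega
    have hr0 : 0 < p / 2 := by
      have := hp.out.two_le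
      omega
    refine carlitz hr hr0 hπ (ε := ((q (ε 0) : ℤ) : ZMod p)) fun x y => ?_
    rw [← hcard, ← hcard]
    have h3 := h1 y x
    rw [h2 y] at h3
    have h4 : q (ε 0) * q (x - y) = q (π x - π y) := by
      rw [h3, ← mul_assoc]
      rcases hdich _ (hε 0) with h5 | h5 <;> rw [h5] <;> ring
    rw [← hq, ← h4]
    push_cast
    ring

end field

section trans

variable {p : ℕ} [hp : Fact p.Prime] {G X : Type} [Group G] [MulAction G X]

/-- `g` acts on the family `F` by an affine map. -/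
def Af (F : ZMod p → X) (g : G) (α t : ZMod p) : Prop := α ≠ 0 ∧ ∀ i, g • F i = F (α * i + t)

theorem Af.mul {F : ZMod p → X} {g g' : G} {α t α' t' : ZMod p} (h : Af F g α t)
    (h' : Af F g' α' t') : Af F (g * g') (α * α') (α * t' + t) := by
  refine ⟨mul_ne_zero h.1 h'.1, fun i => ?_⟩
  rw [mul_smul, h'.2, h.2]
  congr 1
  ring

theorem Af.inv {F : ZMod p → X} {g : G} {α t : ZMod p} (h : Af F g α t) :
    Af F g⁻¹ α⁻¹ (-(α⁻¹ * t)) := by
  refine ⟨inv_ne_zero h.1, fun i => ?_⟩
  rw [inv_smul_eq_iff, h.2]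
  congr 1
  rw [mul_add, ← mul_assoc, mul_inv_cancel₀ h.1, mul_neg, ← mul_assoc, mul_inv_cancel₀ h.1]
  ring

/-- A group of affine maps without a common fixed point is transitive. -/
theorem af_trans {F : ZMod p → X} (hF : Function.Injective F) (K : Subgroup G)
    (hK : ∀ g ∈ K, ∃ α t, Af F g α t) (hfix : ¬ ∃ z, ∀ g ∈ K, g • F z = F z) (i j : ZMod p) :
    ∃ g ∈ K, g • F i = F j := by
  by_cases h1 : ∃ g ∈ K, ∃ t, Af F g 1 t ∧ t ≠ 0
  · obtain ⟨g, hg, t, ht, ht0⟩ := h1
    have h2 : ∀ n : ℕ, (g ^ n) • F i = F (i + n * t) := by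
      intro n
      induction n with
      | zero => simp
      | succ n ih =>
        rw [pow_succ', mul_smul, ih, ht.2]
        congr 1
        push_cast
        ring
    refine ⟨g ^ ((j - i) * t⁻¹).val, K.pow_mem hg _, ?_⟩
    rw [h2, ZMod.natCast_val, ZMod.cast_id, mul_assoc, inv_mul_cancel₀ ht0]
    congr 1
    ring
  · exfalso
    push Not at h1
    have h2 : ∃ g ∈ K, g • F 0 ≠ F 0 := by
      by_contra h3
      push Not at h3
      exact hfix ⟨0, h3⟩
    obtain ⟨g, hg, hg0⟩ := h2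
    obtain ⟨α, t, hαt⟩ := hK g hg
    have hα1 : α ≠ 1 := by
      rintro rfl
      have := h1 g hg t hαt
      subst this
      apply hg0
      rw [hαt.2]
      congr 1
      ring
    have hα1' : 1 - α ≠ 0 := sub_ne_zero.2 (Ne.symm hα1)
    set z := t * (1 - α)⁻¹ with hz
    have hzf : ∀ w, g • F w = F w ↔ w = z := by
      intro w
      rw [hαt.2]
      constructor
      · intro h3
        have h4 := hF h3
        have h5 : w * (1 - α) = t := by linear_combination -h4
        rw [hz, ← h5, mul_assoc, mul_inv_cancel₀ hα1', mul_one]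
      · rintro rfl
        congr 1
        have h5 : z * (1 - α) = t := by
          rw [hz, mul_assoc, inv_mul_cancel₀ hα1', mul_one]
        linear_combination -h5
    apply hfix
    refine ⟨z, fun k hk => ?_⟩
    obtain ⟨β, u, hβu⟩ := hK k hk
    -- the commutator acts trivially
    have h3 := ((hβu.mul hαt).mul hβu.inv).mul hαt.inv
    have hc : k * g * k⁻¹ * g⁻¹ ∈ K :=
      K.mul_mem (K.mul_mem (K.mul_mem hk hg) (K.inv_mem hk)) (K.inv_mem hg)
    have e1 : β * α * β⁻¹ * α⁻¹ = 1 := by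
      have := hβu.1
      have := hαt.1
      field_simp
    rw [e1] at h3
    have h4 := h1 _ hc _ h3
    rw [h4] at h3
    have h5 : g • F (β * z + u) = F (β * z + u) := by
      rw [← hβu.2]
      have h6 := h3.2 (α * (β * z + u) + t)
      rw [one_mul, add_zero, ← hαt.2, ← hβu.2] at h6
      -- k g k⁻¹ g⁻¹ g k F z = g k F z
      have h7 : (k * g * k⁻¹ * g⁻¹) • g • k • F z = k • g • F z := by
        simp only [← mul_smul]
        congr 1
        group
      rw [h7, (hzf z).2 rfl] at h6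
      exact h6.symm
    rw [hβu.2, (hzf _).1 h5]

end trans

section main

variable {p : ℕ} [hp : Fact p.Prime] {G : Type} [Group G]

/-- **Affine steps**, in coordinates. -/
theorem loc_aff {b : ℕ} (hb : 2 ≤ b) {A B : Subgroup G} (h : A ≤ B) (e : ZMod p → G)
    (heB : ∀ i, e i ∈ B) (hinj : ∀ i j, (e i)⁻¹ * e j ∈ A → i = j)
    (hsurj : ∀ g ∈ B, ∃ i, (e i)⁻¹ * g ∈ A)
    (hadd : ∀ i j, (e (i + j))⁻¹ * (e i * e j) ∈ A)
    (hact : ∀ a ∈ A, ∃ α : ZMod p, α ≠ 0 ∧ ∀ i, (e (α * i))⁻¹ * (a * e i) ∈ A) :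
    Loc b A B := by
  classical
  have hmk : ∀ g g' : G, ((g : G) : G ⧸ A) = (g' : G ⧸ A) ↔ g⁻¹ * g' ∈ A := fun g g' =>
    QuotientGroup.eq
  -- the multiplier of an element of `A`
  have hact' : ∀ a ∈ A, ∃ α : ZMod p, α ≠ 0 ∧ ∀ (g : G) i,
      ((g * a * e i : G) : G ⧸ A) = ((g * e (α * i) : G) : G ⧸ A) := by
    intro a ha
    obtain ⟨α, h1, h2⟩ := hact a ha
    refine ⟨α, h1, fun g i => ?_⟩
    symm
    rw [hmk]
    have e1 : (g * e (α * i))⁻¹ * (g * a * e i) = (e (α * i))⁻¹ * (a * e i) := by group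
    rw [e1]
    exact h2 i
  have hinj' : ∀ (g : G) i j, ((g * e i : G) : G ⧸ A) = ((g * e j : G) : G ⧸ A) → i = j := by
    intro g i j h1
    rw [hmk] at h1
    apply hinj
    have e1 : (g * e i)⁻¹ * (g * e j) = (e i)⁻¹ * e j := by group
    rwa [e1] at h1
  have hadd' : ∀ (g : G) i j,
      ((g * e i * e j : G) : G ⧸ A) = ((g * e (i + j) : G) : G ⧸ A) := by
    intro g i j
    symm
    rw [hmk]
    have e1 : (g * e (i + j))⁻¹ * (g * e i * e j) = (e (i + j))⁻¹ * (e i * e j) := by group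
    rw [e1]
    exact hadd i j
  -- the covering subgroup
  let C : Subgroup G :=
    { carrier := {a | a ∈ A ∧ ∃ α : ZMod p, α ≠ 0 ∧ IsSquare α ∧ ∀ (g : G) i,
        ((g * a * e i : G) : G ⧸ A) = ((g * e (α * i) : G) : G ⧸ A)}
      one_mem' := ⟨A.one_mem, 1, one_ne_zero, IsSquare.one, fun g i => by
        rw [mul_one, one_mul]⟩
      mul_mem' := by
        rintro a a' ⟨h1, α, h2, h3, h4⟩ ⟨h1', α', h2', h3', h4'⟩
        refine ⟨A.mul_mem h1 h1', α * α', mul_ne_zero h2 h2', h3.mul h3', fun g i => ?_⟩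
        rw [← mul_assoc g a a', h4', h4, mul_assoc]
      inv_mem' := by
        rintro a ⟨h1, α, h2, h3, h4⟩
        refine ⟨A.inv_mem h1, α⁻¹, inv_ne_zero h2, h3.inv, fun g i => ?_⟩
        have h5 := h4 (g * a⁻¹) (α⁻¹ * i)
        rw [inv_mul_cancel_right, ← mul_assoc, mul_inv_cancel₀ h2, one_mul] at h5
        exact h5.symm }
  have hC : C ≤ A := fun a ha => ha.1
  have hmemC : ∀ a, a ∈ C ↔ a ∈ A ∧ ∃ α : ZMod p, α ≠ 0 ∧ IsSquare α ∧ ∀ (g : G) i,
        ((g * a * e i : G) : G ⧸ A) = ((g * e (α * i) : G) : G ⧸ A) := fun a => Iff.rfl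
  have hidx : C.relIndex A ≤ 2 := by
    have h1 : ∀ a ∈ A, ∀ a' ∈ A, a ∉ C → a' ∉ C → a⁻¹ * a' ∈ C := by
      intro a ha a' ha' hn hn'
      obtain ⟨α, h1, h2⟩ := hact' a ha
      obtain ⟨α', h1', h2'⟩ := hact' a' ha'
      have h3 : ¬ IsSquare α := fun h3 => hn ⟨ha, α, h1, h3, h2⟩
      have h3' : ¬ IsSquare α' := fun h3 => hn' ⟨ha', α', h1', h3, h2'⟩
      refine ⟨A.mul_mem (A.inv_mem ha) ha', α⁻¹ * α', mul_ne_zero (inv_ne_zero h1) h1', ?_,
        fun g i => ?_⟩
      · rw [← quadraticChar_neg_one_iff_not_isSquare] at h3 h3'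
        rw [← quadraticChar_one_iff_isSquare (mul_ne_zero (inv_ne_zero h1) h1'), map_mul, h3']
        have h4 : quadraticChar (ZMod p) α * quadraticChar (ZMod p) α⁻¹ = 1 := by
          rw [← map_mul, mul_inv_cancel₀ h1, map_one]
        rw [h3] at h4
        linarith
      · rw [← mul_assoc g, h2']
        have h5 := h2 (g * a⁻¹) (α⁻¹ * (α' * i))
        have e2 : α * (α⁻¹ * (α' * i)) = α' * i := by
          rw [← mul_assoc, mul_inv_cancel₀ h1, one_mul]
        rw [inv_mul_cancel_right, e2] at h5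
        rw [← h5, mul_assoc]
    show Nat.card (A ⧸ C.subgroupOf A) ≤ 2
    have h2 : Function.Injective (fun x : A ⧸ C.subgroupOf A =>
        Quotient.liftOn' x (fun a : A => decide ((a : G) ∈ C)) (by
          intro a a' haa
          rw [QuotientGroup.leftRel_apply] at haa
          have haa' : (a : G)⁻¹ * a' ∈ C := haa
          have : (a : G) ∈ C ↔ (a' : G) ∈ C := by
            constructor
            · intro h3
              have := C.mul_mem h3 haa'
              rwa [mul_inv_cancel_left] at this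
            · intro h3
              have := C.mul_mem h3 (C.inv_mem haa')
              rwa [mul_inv_rev, inv_inv, mul_inv_cancel_left] at this
          exact decide_eq_decide.2 this)) := by
      intro x x' hxx
      induction x using QuotientGroup.induction_on with
      | H a =>
        induction x' using QuotientGroup.induction_on with
        | H a' =>
          have h3 : decide ((a : G) ∈ C) = decide ((a' : G) ∈ C) := hxx
          rw [decide_eq_decide] at h3
          rw [QuotientGroup.eq]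
          show (a : G)⁻¹ * a' ∈ C
          by_cases h4 : (a : G) ∈ C
          · exact C.mul_mem (C.inv_mem h4) (h3.1 h4)
          · exact h1 _ a.2 _ a'.2 h4 fun h5 => h4 (h3.2 h5)
    have h3 := Nat.card_le_card_of_injective _ h2
    simpa using h3
  -- the relation
  let T0 : Set (G ⧸ C) := {y | ∃ i : ZMod p, i ≠ 0 ∧ IsSquare i ∧ prj hC y = (e i : G ⧸ A)}
  have hrl : ∀ (g : G) (y : G ⧸ C), rl C T0 (g : G ⧸ C) y ↔
      ∃ i : ZMod p, i ≠ 0 ∧ IsSquare i ∧ prj hC y = ((g * e i : G) : G ⧸ A) := by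
    intro g y
    constructor
    · rintro ⟨g', h1, i, h2, h3, h4⟩
      rw [prj_smul, inv_smul_eq_iff] at h4
      have h5 : g⁻¹ * g' ∈ C := QuotientGroup.eq.1 h1
      obtain ⟨-, α, h6, h7, h8⟩ := h5
      refine ⟨α * i, mul_ne_zero h6 h2, h7.mul h3, ?_⟩
      rw [h4]
      have h9 := h8 g i
      rw [mul_inv_cancel_left] at h9
      exact h9
    · rintro ⟨i, h2, h3, h4⟩
      refine ⟨g, rfl, i, h2, h3, ?_⟩
      rw [prj_smul, h4]
      show ((g⁻¹ * (g * e i) : G) : G ⧸ A) = _
      rw [inv_mul_cancel_left]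
  refine ⟨C, hC, h, fun _ => T0, hidx.trans hb, ?_, ?_⟩
  · -- the pin
    intro f' hf hT x
    obtain ⟨g, rfl⟩ := QuotientGroup.mk_surjective x
    obtain ⟨g'', hg''⟩ := QuotientGroup.mk_surjective (f' (g : G ⧸ C))
    have h1 := hf (g : G ⧸ C)
    rw [← hg'', prj_mk, prj_mk, hmk] at h1
    have ha : g⁻¹ * g'' ∈ A := by
      have := A.inv_mem h1
      rwa [mul_inv_rev, inv_inv] at this
    obtain ⟨α, h2, h3⟩ := hact' _ ha
    have h4 := hT ⟨0, by omega⟩ (g : G ⧸ C) ((g * e 1 : G) : G ⧸ C)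
    rw [← hg'', hrl, hrl, hf] at h4
    obtain ⟨i, h5, h6, h7⟩ := h4.2 ⟨1, one_ne_zero, IsSquare.one, rfl⟩
    have h8 := h3 g i
    rw [mul_inv_cancel_left] at h8
    rw [prj_mk, h8] at h7
    have h9 := hinj' _ _ _ h7
    have h10 : IsSquare α := by
      have : α = i⁻¹ := eq_inv_of_mul_eq_one_left h9.symm
      rw [this]
      exact h6.inv
    rw [← hg'', eq_comm, QuotientGroup.eq]
    exact ⟨ha, α, h2, h10, h3⟩
  · intro β K hK
    obtain ⟨g0, rfl⟩ := QuotientGroup.mk_surjective β
    set F : ZMod p → G ⧸ A := fun i => ((g0 * e i : G) : G ⧸ A) with hF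
    have hFinj : Function.Injective F := fun i j hij => hinj' g0 i j hij
    have hFfib : ∀ i, prj h (F i) = (g0 : G ⧸ B) := by
      intro i
      show ((g0 * e i : G) : G ⧸ B) = (g0 : G ⧸ B)
      rw [eq_comm, QuotientGroup.eq, inv_mul_cancel_left]
      exact heB i
    have hFall : ∀ x, prj h x = (g0 : G ⧸ B) → ∃ i, F i = x := by
      intro x hx
      obtain ⟨g, rfl⟩ := QuotientGroup.mk_surjective x
      rw [prj_mk, eq_comm, QuotientGroup.eq] at hx
      obtain ⟨i, hi⟩ := hsurj _ hx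
      refine ⟨i, ?_⟩
      rw [hF, hmk]
      have e1 : (g0 * e i)⁻¹ * g = (e i)⁻¹ * (g0⁻¹ * g) := by group
      rw [e1]
      exact hi
    have hKaf : ∀ g ∈ K, ∃ α t, Af F g α t := by
      intro g hg
      have h1 := hK g hg
      have h2 : ((g * g0 : G) : G ⧸ B) = (g0 : G ⧸ B) := h1
      have h3 : g0⁻¹ * (g * g0) ∈ B := by
        rw [eq_comm, QuotientGroup.eq] at h2
        exact h2
      obtain ⟨t, ht⟩ := hsurj _ h3
      obtain ⟨α, h4, h5⟩ := hact' _ ht
      refine ⟨α, t, h4, fun i => ?_⟩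
      show ((g * (g0 * e i) : G) : G ⧸ A) = ((g0 * e (α * i + t) : G) : G ⧸ A)
      have h6 := h5 (g0 * e t) i
      have e1 : g0 * e t * ((e t)⁻¹ * (g0⁻¹ * (g * g0))) * e i = g * (g0 * e i) := by group
      rw [e1, hadd'] at h6
      rw [h6, add_comm t]
    -- the marked points
    have hz : ∃ z0 : ZMod p, (∃ z, ∀ g ∈ K, g • F z = F z) → ∀ g ∈ K, g • F z0 = F z0 := by
      by_cases h1 : ∃ z, ∀ g ∈ K, g • F z = F z
      · obtain ⟨z, hz⟩ := h1
        exact ⟨z, fun _ => hz⟩
      · exact ⟨0, fun h2 => absurd h2 h1⟩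
    obtain ⟨z0, hz0⟩ := hz
    refine ⟨fun k => {y | prj hC y = F (z0 + (if k.1 = 0 then 0 else 1))},
      fun f f' hff hT hfa hS x hx => ?_⟩
    -- the permutation of the coordinates
    have hπex : ∀ i, ∃ j, F j = f (F i) := fun i => hFall _ (hfa _ (hFfib i))
    choose π hπ using hπex
    have hπinj : Function.Injective π := by
      intro i j hij
      apply hFinj
      apply f.injective
      rw [← hπ, ← hπ, hij]
    have hπbij : Function.Bijective π := Finite.injective_iff_bijective.1 hπinj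
    have hmarked : ∀ k : Fin b, ∃ g ∈ K,
        g • f (F (z0 + (if k.1 = 0 then 0 else 1))) = F (z0 + (if k.1 = 0 then 0 else 1)) := by
      intro k
      obtain ⟨y, hy⟩ := prj_surj hC (F (z0 + (if k.1 = 0 then 0 else 1)))
      obtain ⟨g, hg, hg2⟩ := (hS k y (by rw [hy]; exact hFfib _)).2 ⟨1, K.one_mem, by
        rw [one_smul]; exact hy⟩
      refine ⟨g, hg, ?_⟩
      have h1 : prj hC (g • f' y) = F (z0 + (if k.1 = 0 then 0 else 1)) := hg2
      rwa [prj_smul, hff, hy] at h1
    -- the twists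
    have hεex : ∀ i, ∃ ε : ZMod p, ε ≠ 0 ∧ ∃ g : G, f' ((g0 * e i : G) : G ⧸ C) = (g : G ⧸ C) ∧
        ∀ s, ((g * e s : G) : G ⧸ A) = F (π i + ε * s) := by
      intro i
      obtain ⟨g, hg⟩ := QuotientGroup.mk_surjective (f' ((g0 * e i : G) : G ⧸ C))
      have h1 := hff ((g0 * e i : G) : G ⧸ C)
      rw [← hg, prj_mk, prj_mk] at h1
      have h2 : ((g : G) : G ⧸ A) = F (π i) := by rw [h1, hπ]
      have h3 : (g0 * e (π i))⁻¹ * g ∈ A := (hmk _ _).1 h2.symm
      obtain ⟨ε, h4, h5⟩ := hact' _ h3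
      refine ⟨ε, h4, g, hg.symm, fun s => ?_⟩
      have h6 := h5 (g0 * e (π i)) s
      rw [mul_inv_cancel_left, hadd'] at h6
      exact h6
    choose ε hε0 γ hγ1 hγ2 using hεex
    have haff := affine_of_squares hπbij (ε := ε) hε0 (by
      intro i j
      have h1 := hT ⟨0, by omega⟩ ((g0 * e i : G) : G ⧸ C) ((g0 * e j : G) : G ⧸ C)
      rw [hγ1 i, hrl, hrl, hff] at h1
      have h2 : prj hC ((g0 * e j : G) : G ⧸ C) = F j := rfl
      rw [h2, ← hπ] at h1
      constructor
      · rintro ⟨s, a1, a2, a3⟩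
        obtain ⟨s', b1, b2, b3⟩ := h1.2 ⟨s, a1, a2, by rw [hadd', a3]⟩
        exact ⟨s', b1, b2, hFinj (by rw [b3, hγ2])⟩
      · rintro ⟨s, a1, a2, a3⟩
        obtain ⟨s', b1, b2, b3⟩ := h1.1 ⟨s, a1, a2, by rw [hγ2, a3]⟩
        rw [hadd'] at b3
        exact ⟨s', b1, b2, hFinj b3⟩)
    obtain ⟨a, c, hac⟩ := haff
    obtain ⟨i, rfl⟩ := hFall x hx
    by_cases hfix : ∃ z, ∀ g ∈ K, g • F z = F z
    · have hz := hz0 hfix
      obtain ⟨g1, hg1, h1⟩ := hmarked ⟨0, by omega⟩
      obtain ⟨g2, hg2, h2⟩ := hmarked ⟨1, by omega⟩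
      simp only [if_true, add_zero] at h1
      simp only [one_ne_zero, if_false] at h2
      have h3 : π z0 = z0 := by
        apply hFinj
        rw [hπ]
        have h6 : g1 • f (F z0) = g1 • F z0 := by
          rw [h1, hz g1 hg1]
        exact MulAction.injective g1 h6
      obtain ⟨α, t, hαt⟩ := hKaf g2⁻¹ (K.inv_mem hg2)
      have h4 : F (π (z0 + 1)) = F (α * (z0 + 1) + t) := by
        rw [hπ, ← hαt.2, ← h2, inv_smul_smul]
        rw [h2]
      have h5 : F (α * z0 + t) = F z0 := by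
        rw [← hαt.2]
        exact hz _ (K.inv_mem hg2)
      have h6 := hFinj h4
      have h7 := hFinj h5
      refine ⟨g2⁻¹, K.inv_mem hg2, ?_⟩
      rw [← hπ, hαt.2]
      congr 1
      rw [hac] at h3 h6 ⊢
      have h8 : a = α := by linear_combination h6 - h3 + h7
      subst h8
      linear_combination h3 - h7
    · obtain ⟨g, hg, hg2⟩ := af_trans hFinj K hKaf hfix i (π i)
      exact ⟨g, hg, by rw [← hπ, hg2]⟩

end main

end Pool.Agent.VG
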