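import Mathlib

/-!
# Permutations of `F_p` which respect the squares of differences
-/

set_option autoImplicit false

namespace Pool.Agent.VG

open Polynomial

variable {p : ℕ} [hp : Fact p.Prime]

theorem sum_pow_pos (m : ℕ) (hm : 0 < m) :
    ∑ x : ZMod p, x ^ m = if p - 1 ∣ m then -1 else 0 := by
  classical
  let φ : (ZMod p)ˣ ↪ ZMod p := ⟨fun x ↦ x, Units.val_injective⟩
  have h1 : Finset.univ.map φ = Finset.univ \ {0} := by
    ext x
    simpa only [Finset.mem_map, Finset.mem_univ, Function.Embedding.coeFn_mk, true_and,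
      Finset.mem_sdiff, Finset.mem_singleton, φ] using! isUnit_iff_ne_zero
  have h2 := FiniteField.sum_pow_units (ZMod p) m
  rw [ZMod.card] at h2
  calc ∑ x : ZMod p, x ^ m = ∑ x ∈ Finset.univ \ {(0 : ZMod p)}, x ^ m := by
        rw [← Finset.sum_sdiff ({0} : Finset (ZMod p)).subset_univ, Finset.sum_singleton,
          zero_pow hm.ne', add_zero]
    _ = ∑ x : (ZMod p)ˣ, (x ^ m : ZMod p) := by simp [φ, ← h1, Finset.univ.sum_map φ]
    _ = _ := h2

/-- the power `a ^ k` from the shifted `r`-th powers -/
theorem power_sum {r : ℕ} (hr : 2 * r = p - 1) (hr0 : 0 < r) (a : ZMod p) {k : ℕ} (hk : k ≤ r) :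
    ∑ t : ZMod p, t ^ (r + k) * (a - t) ^ r = -((-1) ^ (r - k) * (r.choose k)) * a ^ k := by
  have h1 : ∀ t : ZMod p, t ^ (r + k) * (a - t) ^ r =
      ∑ j ∈ Finset.range (r + 1), (a ^ j * (-1) ^ (r - j) * (r.choose j)) *
        t ^ (r + k + (r - j)) := by
    intro t
    rw [sub_eq_add_neg, add_pow, Finset.mul_sum]
    refine Finset.sum_congr rfl fun j _ => ?_
    rw [neg_pow, pow_add]
    ring
  rw [Finset.sum_congr rfl fun t _ => h1 t, Finset.sum_comm]
  have h2 : ∀ j ∈ Finset.range (r + 1), ∑ t : ZMod p,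
      (a ^ j * (-1) ^ (r - j) * (r.choose j)) * t ^ (r + k + (r - j)) =
      if j = k then -((-1) ^ (r - k) * (r.choose k)) * a ^ k else 0 := by
    intro j hj
    rw [Finset.mem_range] at hj
    rw [← Finset.mul_sum, sum_pow_pos _ (by omega)]
    by_cases hjk : j = k
    · subst hjk
      rw [if_pos (by
        have : r + j + (r - j) = p - 1 := by omega
        rw [this]), if_pos rfl]
      ring
    · rw [if_neg hjk, if_neg, mul_zero]
      intro h3
      obtain ⟨c, hc⟩ := h3
      have h4 : c = 1 := by
        have h5 : c < 2 := by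
          by_contra h6
          push Not at h6
          have : (p - 1) * 2 ≤ (p - 1) * c := Nat.mul_le_mul_left _ h6
          omega
        have h7 : 0 < c := by
          rcases Nat.eq_zero_or_pos c with h8 | h8
          · rw [h8] at hc
            omega
          · exact h8
        omega
      rw [h4] at hc
      omega
  rw [Finset.sum_congr rfl h2, Finset.sum_ite_eq' (Finset.range (r + 1)) k, if_pos]
  rw [Finset.mem_range]
  omega

/-- the powers of `f` are polynomials of degree at most `r` -/
theorem power_poly {r : ℕ} (hr : 2 * r = p - 1) (hr0 : 0 < r) {f : ZMod p → ZMod p}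
    (hf : Function.Surjective f) {ε : ZMod p}
    (h : ∀ x y, (f x - f y) ^ r = ε * (x - y) ^ r) {k : ℕ} (hk : k ≤ r) :
    ∃ q : (ZMod p)[X], q.natDegree ≤ r ∧ ∀ x, f x ^ k = q.eval x := by
  choose g hg using hf
  have hc0 : -((-1) ^ (r - k) * (r.choose k) : ZMod p) ≠ 0 := by
    rw [neg_ne_zero]
    apply mul_ne_zero
    · exact pow_ne_zero _ (neg_ne_zero.2 one_ne_zero)
    · rw [Ne, ZMod.natCast_eq_zero_iff]
      intro h1
      have h2 : p ∣ r.factorial := by
        rw [← Nat.choose_mul_factorial_mul_factorial hk]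
        exact (h1.mul_right _).mul_right _
      rw [hp.out.dvd_factorial] at h2
      have := hp.out.two_le
      omega
  refine ⟨C (-((-1) ^ (r - k) * (r.choose k)) : ZMod p)⁻¹ *
    ∑ t : ZMod p, C (t ^ (r + k) * ε) * (X - C (g t)) ^ r, ?_, ?_⟩
  · refine (natDegree_C_mul_le _ _).trans ?_
    apply natDegree_sum_le_of_forall_le
    intro t _
    refine (natDegree_C_mul_le _ _).trans ?_
    rw [natDegree_pow, natDegree_X_sub_C, mul_one]
  · intro x
    rw [eval_mul, eval_C, eval_finsetSum]
    have h1 : ∀ t : ZMod p, eval x (C (t ^ (r + k) * ε) * (X - C (g t)) ^ r) =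
        t ^ (r + k) * (f x - t) ^ r := by
      intro t
      rw [eval_mul, eval_C, eval_pow, eval_sub, eval_X, eval_C, mul_assoc, ← h, hg]
    rw [Finset.sum_congr rfl fun t _ => h1 t, power_sum hr hr0 _ hk, ← mul_assoc,
      inv_mul_cancel₀ hc0, one_mul]

/-- **Carlitz's theorem** for a prime field. -/
theorem carlitz {r : ℕ} (hr : 2 * r = p - 1) (hr0 : 0 < r) {f : ZMod p → ZMod p}
    (hf : Function.Bijective f) {ε : ZMod p}
    (h : ∀ x y, (f x - f y) ^ r = ε * (x - y) ^ r) :
    ∃ a b : ZMod p, ∀ x, f x = a * x + b := by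
  obtain ⟨q, hq, hqf⟩ := power_poly hr hr0 hf.2 h (k := 1) hr0
  simp only [pow_one] at hqf
  have hd : q.natDegree ≤ 1 := by
    by_contra hd
    push Not at hd
    set d := q.natDegree with hdd
    set k := r / d + 1 with hk
    have hd0 : 0 < d := by omega
    have hk1 : k ≤ r := by
      have : r / d ≤ r / 2 := Nat.div_le_div_left hd (by norm_num)
      omega
    have hk2 : r < k * d := by
      rw [hk, mul_comm]
      exact Nat.lt_mul_div_succ r hd0
    have hk3 : k * d ≤ 2 * r := by
      have : r / d * d ≤ r := Nat.div_mul_le_self r d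
      rw [hk, add_mul, one_mul]
      omega
    obtain ⟨q', hq', hqf'⟩ := power_poly hr hr0 hf.2 h hk1
    have he : q ^ k = q' := by
      apply eq_of_natDegree_lt_card_of_eval_eq (q ^ k) q' (f := fun x : ZMod p => x)
        Function.injective_id
      · intro x
        rw [eval_pow, ← hqf, hqf']
      · rw [ZMod.card, natDegree_pow, ← hdd]
        have := hp.out.two_le
        exact max_lt (by omega) (by omega)
    have h1 : (q ^ k).natDegree = k * d := natDegree_pow _ _
    rw [he] at h1
    omega
  obtain ⟨a, b, hab⟩ := exists_eq_X_add_C_of_natDegree_le_one hd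
  refine ⟨a, b, fun x => ?_⟩
  rw [hqf, hab]
  simp

end Pool.Agent.VG
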