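import Mathlib

/-!
# From a structure with binary relations to a graph
-/

set_option autoImplicit false

namespace Pool.Agent.VG

/-- The vertices of the graph: `p`, `z`, one vertex `q i` for every layer and the layers. -/
inductive Wt (N : Type) (s : ℕ) : Type
  | p : Wt N s
  | z : Wt N s
  | q (i : Fin (s + 2)) : Wt N s
  | v (x : N) (i : Fin (s + 2)) : Wt N s

namespace Wt

variable {N : Type} {s : ℕ}

/-- edges between the layers `i < j` -/
def lay (rels : Fin s → N → N → Prop) (x : N) (i : Fin (s + 2)) (y : N) (j : Fin (s + 2)) : Prop :=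
  (j.1 = i.1 + 1 ∧ x = y) ∨ (i.1 = 0 ∧ ∃ k : Fin s, j.1 = k.1 + 2 ∧ rels k x y)

/-- half of the adjacency relation -/
def half (rels : Fin s → N → N → Prop) : Wt N s → Wt N s → Prop
  | p, z => True
  | z, v _ _ => True
  | q i, q j => i ≠ j
  | q i, v _ j => j ≤ i
  | v x i, v y j => lay rels x i y j
  | _, _ => False

/-- the graph -/
def gr (rels : Fin s → N → N → Prop) : SimpleGraph (Wt N s) where
  Adj a b := half rels a b ∨ half rels b a
  symm := ⟨fun _ _ h => h.symm⟩
  loopless := ⟨by
    rintro (_ | _ | i | ⟨x, i⟩) h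
    · rcases h with h | h <;> exact h
    · rcases h with h | h <;> exact h
    · rcases h with h | h <;> exact h rfl
    · rcases h with h | h <;> (rcases h with ⟨h, -⟩ | ⟨h, k, hk, -⟩ <;> omega)⟩

/-- the action of a permutation of `N` -/
def lift (h : Equiv.Perm N) : Equiv.Perm (Wt N s) where
  toFun
    | p => p
    | z => z
    | q i => q i
    | v x i => v (h x) i
  invFun
    | p => p
    | z => z
    | q i => q i
    | v x i => v (h.symm x) i
  left_inv := by rintro (_ | _ | i | ⟨x, i⟩) <;> simp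
  right_inv := by rintro (_ | _ | i | ⟨x, i⟩) <;> simp

theorem lift_mul (h h' : Equiv.Perm N) : (lift (h * h') : Equiv.Perm (Wt N s)) =
    lift h * lift h' := by
  ext a
  rcases a with _ | _ | i | ⟨x, i⟩ <;> rfl

theorem lift_adj {rels : Fin s → N → N → Prop} {h : Equiv.Perm N}
    (hh : ∀ k x y, rels k (h x) (h y) ↔ rels k x y) (a b : Wt N s) :
    (gr rels).Adj (lift h a) (lift h b) ↔ (gr rels).Adj a b := by
  have key : ∀ a b : Wt N s, half rels (lift h a) (lift h b) ↔ half rels a b := by
    intro a b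
    rcases a with _ | _ | i | ⟨x, i⟩ <;> rcases b with _ | _ | j | ⟨y, j⟩ <;>
      try exact Iff.rfl
    show lay rels (h x) i (h y) j ↔ lay rels x i y j
    unfold lay
    simp only [h.injective.eq_iff, hh]
  show half rels _ _ ∨ half rels _ _ ↔ half rels _ _ ∨ half rels _ _
  rw [key, key]

section

variable [Nonempty N] {rels : Fin s → N → N → Prop} {σ : Equiv.Perm (Wt N s)}

theorem adj_p {a : Wt N s} : (gr rels).Adj p a ↔ a = z := by
  rcases a with _ | _ | i | ⟨x, i⟩ <;> simp [gr, half]

theorem adj_z {a : Wt N s} : (gr rels).Adj z a ↔ a = p ∨ ∃ x i, a = v x i := by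
  rcases a with _ | _ | i | ⟨x, i⟩ <;> simp [gr, half]

theorem adj_qv {i j : Fin (s + 2)} {x : N} : (gr rels).Adj (q i) (v x j) ↔ j ≤ i := by
  simp [gr, half]

theorem adj_vv {i j : Fin (s + 2)} {x y : N} (h : i < j) :
    (gr rels).Adj (v x i) (v y j) ↔ lay rels x i y j := by
  show lay rels x i y j ∨ lay rels y j x i ↔ _
  constructor
  · rintro (h1 | h1)
    · exact h1
    · exfalso
      have h' : i.1 < j.1 := h
      rcases h1 with ⟨h1, -⟩ | ⟨h1, k, hk, -⟩ <;> omega
  · exact Or.inl

theorem leaf {a : Wt N s} (h : ∀ u u', (gr rels).Adj a u → (gr rels).Adj a u' → u = u') :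
    a = p := by
  obtain ⟨x⟩ := ‹Nonempty N›
  rcases a with _ | _ | i | ⟨y, i⟩
  · rfl
  · exfalso
    have := h p (v x 0) (by simp [gr, half]) (by simp [gr, half])
    cases this
  · exfalso
    have hj : ∃ j : Fin (s + 2), j ≠ i := exists_ne i
    obtain ⟨j, hj⟩ := hj
    have := h (v x 0) (q j) (by simp [gr, half]) (by simp [gr, half, hj, hj.symm])
    cases this
  · exfalso
    have := h z (q (Fin.last _)) (by simp [gr, half]) (by simp [gr, half, Fin.le_last])
    cases this

variable (hσ : ∀ a b, (gr rels).Adj (σ a) (σ b) ↔ (gr rels).Adj a b)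

include hσ

theorem fix_p : σ p = p := by
  refine leaf (rels := rels) fun u u' h1 h2 => ?_
  obtain ⟨w, rfl⟩ := σ.surjective u
  obtain ⟨w', rfl⟩ := σ.surjective u'
  rw [hσ, adj_p] at h1 h2
  rw [h1, h2]

theorem fix_z : σ z = z := by
  have h := (hσ p z).2 (adj_p.2 rfl)
  rw [fix_p hσ, adj_p] at h
  exact h

theorem map_v (x : N) (i : Fin (s + 2)) : ∃ y j, σ (v x i) = v y j := by
  have h := (hσ z (v x i)).2 (adj_z.2 (Or.inr ⟨x, i, rfl⟩))
  rw [fix_z hσ, adj_z] at h
  rcases h with h | h
  · exfalso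
    have h2 : σ (v x i) = σ p := by rw [h, fix_p hσ]
    exact absurd (σ.injective h2) (by simp)
  · exact h

theorem map_q (i : Fin (s + 2)) : ∃ j, σ (q i) = q j := by
  rcases h : σ (q i) with _ | _ | j | ⟨y, j⟩
  · have h2 : σ (q i) = σ p := by rw [h, fix_p hσ]
    exact absurd (σ.injective h2) (by simp)
  · have h2 : σ (q i) = σ z := by rw [h, fix_z hσ]
    exact absurd (σ.injective h2) (by simp)
  · exact ⟨j, rfl⟩
  · exfalso
    have h2 : (gr rels).Adj z (σ (q i)) := by
      rw [h, adj_z]
      exact Or.inr ⟨y, j, rfl⟩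
    rw [← fix_z hσ, hσ, adj_z] at h2
    rcases h2 with h2 | ⟨_, _, h2⟩ <;> cases h2

theorem fix_q (i : Fin (s + 2)) : σ (q i) = q i := by
  classical
  choose τ hτ using map_q hσ
  have hle : ∀ i j, i ≤ j ↔ ∀ x l, (gr rels).Adj (q i) (v x l) → (gr rels).Adj (q j) (v x l) := by
    intro i j
    constructor
    · intro h x l h1
      rw [adj_qv] at h1 ⊢
      exact h1.trans h
    · intro h
      obtain ⟨x⟩ := ‹Nonempty N›
      exact adj_qv.1 (h x i (adj_qv.2 le_rfl))
  have hmono : ∀ i j, i ≤ j → τ i ≤ τ j := by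
    intro i j h
    rw [hle]
    intro x l h1
    obtain ⟨w, hw⟩ := σ.surjective (v x l)
    have hw' : ∃ y m, w = v y m := by
      rcases w with _ | _ | m | ⟨y, m⟩
      · rw [fix_p hσ] at hw
        cases hw
      · rw [fix_z hσ] at hw
        cases hw
      · obtain ⟨m', hm'⟩ := map_q hσ m
        rw [hm'] at hw
        cases hw
      · exact ⟨y, m, rfl⟩
    obtain ⟨y, m, rfl⟩ := hw'
    rw [← hw, ← hτ, hσ] at h1 ⊢
    exact (hle i j).1 h y m h1
  have hinj : Function.Injective τ := by
    intro i j h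
    have : σ (q i) = σ (q j) := by rw [hτ, hτ, h]
    have := σ.injective this
    simpa using this
  have hs : StrictMono τ :=
    (show Monotone τ from fun i j h => hmono i j h).strictMono_of_injective hinj
  have hbij : Function.Bijective τ := Finite.injective_iff_bijective.1 hinj
  have hid : τ = id := by
    have e : Fin (s + 2) ≃o Fin (s + 2) := StrictMono.orderIsoOfSurjective τ hs hbij.2
    have h1 : StrictMono.orderIsoOfSurjective τ hs hbij.2 = OrderIso.refl _ :=
      Subsingleton.elim _ _
    funext i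
    have := congrArg (fun f : Fin (s + 2) ≃o Fin (s + 2) => f i) h1
    exact this
  rw [hτ, hid]
  rfl

theorem map_v' (x : N) (i : Fin (s + 2)) : ∃ y, σ (v x i) = v y i := by
  obtain ⟨y, j, h⟩ := map_v hσ x i
  have h1 : ∀ l, j ≤ l ↔ i ≤ l := by
    intro l
    rw [← adj_qv (rels := rels) (x := y), ← adj_qv (rels := rels) (x := x), ← h]
    conv_lhs => rw [← fix_q hσ l]
    exact hσ _ _
  have h2 : j = i := le_antisymm ((h1 i).2 le_rfl) ((h1 j).1 le_rfl)
  rw [h2] at h
  exact ⟨y, h⟩

theorem exists_perm : ∃ h : Equiv.Perm N, (∀ k x y, rels k (h x) (h y) ↔ rels k x y) ∧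
    σ = lift h := by
  choose f hf using map_v' hσ
  have hinj : ∀ i, Function.Injective fun x => f x i := by
    intro i x y h
    have h1 : σ (v x i) = σ (v y i) := by
      rw [hf, hf]
      exact congrArg (fun t => v t i) h
    have := σ.injective h1
    simpa using this
  have hsurj : ∀ i, Function.Surjective fun x => f x i := by
    intro i y
    obtain ⟨w, hw⟩ := σ.surjective (v y i)
    rcases w with _ | _ | m | ⟨x, m⟩
    · rw [fix_p hσ] at hw
      cases hw
    · rw [fix_z hσ] at hw
      cases hw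
    · rw [fix_q hσ] at hw
      cases hw
    · rw [hf] at hw
      injection hw with h1 h2
      subst h2
      exact ⟨x, h1⟩
  -- all layers are moved in the same way
  have hstep : ∀ (i : ℕ) (hi : i < s + 2) (x : N), f x ⟨i, hi⟩ = f x 0 := by
    intro i
    induction i with
    | zero => intro _ x; rfl
    | succ i ih =>
      intro hi x
      rw [← ih (by omega) x]
      have hlt : (⟨i, by omega⟩ : Fin (s + 2)) < ⟨i + 1, hi⟩ := by
        rw [Fin.lt_def]
        exact Nat.lt_succ_self i
      have h1 : (gr rels).Adj (v x ⟨i, by omega⟩) (v x ⟨i + 1, hi⟩) :=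
        (adj_vv hlt).2 (Or.inl ⟨rfl, rfl⟩)
      rw [← hσ, hf, hf, adj_vv hlt] at h1
      rcases h1 with ⟨-, h1⟩ | ⟨h1, k, hk, -⟩
      · exact h1.symm
      · exfalso
        simp only at h1 hk
        omega
  refine ⟨Equiv.ofBijective (fun x => f x 0) ⟨hinj 0, hsurj 0⟩, ?_, ?_⟩
  · intro k x y
    have hlt : (0 : Fin (s + 2)) < ⟨k.1 + 2, by omega⟩ := by
      rw [Fin.lt_def]
      simp
    have h1 : ∀ x y : N, (gr rels).Adj (v x 0) (v y ⟨k.1 + 2, by omega⟩) ↔ rels k x y := by
      intro x y
      rw [adj_vv hlt]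
      unfold lay
      constructor
      · rintro (⟨h1, -⟩ | ⟨-, k', hk', h1⟩)
        · simp at h1
        · have : k' = k := by
            ext
            simp only at hk'
            omega
          rw [← this]
          exact h1
      · intro h
        exact Or.inr ⟨rfl, k, rfl, h⟩
    show rels k (f x 0) (f y 0) ↔ rels k x y
    rw [← h1, ← h1 x y, ← hσ (v x 0), hf, hf, hstep (k.1 + 2) _ y]
  · ext a
    rcases a with _ | _ | i | ⟨x, i⟩
    · rw [fix_p hσ]; rfl
    · rw [fix_z hσ]; rfl
    · rw [fix_q hσ]; rfl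
    · rw [hf]
      show v (f x i) i = v (f x 0) i
      rw [← hstep i.1 i.2 x]

end

/-- the number of vertices -/
def toSum : Wt N s ≃ (Unit ⊕ Unit) ⊕ (Fin (s + 2) ⊕ N × Fin (s + 2)) where
  toFun
    | p => .inl (.inl ())
    | z => .inl (.inr ())
    | q i => .inr (.inl i)
    | v x i => .inr (.inr (x, i))
  invFun
    | .inl (.inl _) => p
    | .inl (.inr _) => z
    | .inr (.inl i) => q i
    | .inr (.inr (x, i)) => v x i
  left_inv := by rintro (_ | _ | i | ⟨x, i⟩) <;> rfl
  right_inv := by rintro ((_ | _) | (i | ⟨x, i⟩)) <;> rfl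

theorem card_eq [Finite N] : Nat.card (Wt N s) = (s + 2) * (Nat.card N + 1) + 2 := by
  rw [Nat.card_congr toSum, Nat.card_sum, Nat.card_sum, Nat.card_sum, Nat.card_prod]
  simp only [Nat.card_eq_fintype_card, Fintype.card_unit, Fintype.card_fin]
  ring

end Wt

open Wt

/-- **Gadgets.** A structure with `s` binary relations whose automorphisms are the elements of a
group `G` gives a graph. -/
theorem gadget {G N : Type} [Group G] [MulAction G N] [Nonempty N] [Finite N] {s : ℕ}
    (rels : Fin s → N → N → Prop) (hfaith : ∀ g : G, (∀ x : N, g • x = x) → g = 1)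
    (hinv : ∀ (g : G) k x y, rels k (g • x) (g • y) ↔ rels k x y)
    (hfull : ∀ h : Equiv.Perm N, (∀ k x y, rels k (h x) (h y) ↔ rels k x y) →
      ∃ g : G, ∀ x, h x = g • x) :
    ∃ (m : ℕ) (Γ : SimpleGraph (Fin m)) (ψ : G →* Equiv.Perm (Fin m)),
      Function.Injective ⇑ψ ∧
      (∀ σ : Equiv.Perm (Fin m),
        (∀ x y : Fin m, Γ.Adj (σ x) (σ y) ↔ Γ.Adj x y) ↔ σ ∈ Set.range ⇑ψ) ∧
      m = (s + 2) * (Nat.card N + 1) + 2 := by
  classical
  have hfin : Finite (Wt N s) := Finite.of_equiv _ toSum.symm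
  set m := Nat.card (Wt N s) with hm
  let e : Wt N s ≃ Fin m := Finite.equivFin _
  let L : G →* Equiv.Perm (Wt N s) :=
    { toFun := fun g => lift (MulAction.toPerm g)
      map_one' := by
        ext a
        rcases a with _ | _ | i | ⟨x, i⟩
        · rfl
        · rfl
        · rfl
        · show v ((1 : G) • x) i = v x i
          rw [one_smul]
      map_mul' := fun g g' => by
        ext a
        rcases a with _ | _ | i | ⟨x, i⟩
        · rfl
        · rfl
        · rfl
        · show v ((g * g') • x) i = v (g • g' • x) i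
          rw [mul_smul] }
  have hL : ∀ g, L g = lift (MulAction.toPerm g) := fun _ => rfl
  refine ⟨m, (gr rels).map e.toEmbedding, (e.permCongrHom.toMonoidHom).comp L, ?_, ?_, ?_⟩
  · rw [injective_iff_map_eq_one]
    intro g hg
    apply hfaith
    intro x
    have h1 : e.permCongr (L g) = 1 := hg
    have h2 : L g (v x 0) = v x 0 := by
      have h3 := congrArg (fun σ : Equiv.Perm (Fin m) => e.symm (σ (e (v x 0)))) h1
      simpa using h3
    have h3 : (v (g • x) 0 : Wt N s) = v x 0 := h2
    injection h3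
  · intro σ
    have hadj : ∀ x y : Fin m, ((gr rels).map e.toEmbedding).Adj x y ↔
        (gr rels).Adj (e.symm x) (e.symm y) := by
      intro x y
      rw [SimpleGraph.map_adj]
      constructor
      · rintro ⟨a, b, h, rfl, rfl⟩
        simpa using h
      · intro h
        exact ⟨_, _, h, by simp, by simp⟩
    simp only [hadj]
    constructor
    · intro h
      set τ : Equiv.Perm (Wt N s) := e.symm.permCongr σ with hτ
      have hτa : ∀ a b, (gr rels).Adj (τ a) (τ b) ↔ (gr rels).Adj a b := by
        intro a b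
        have h1 := h (e a) (e b)
        simpa [hτ, Equiv.permCongr_apply] using h1
      obtain ⟨k, hk1, hk2⟩ := exists_perm hτa
      obtain ⟨g, hg⟩ := hfull k hk1
      refine ⟨g, ?_⟩
      have h2 : k = MulAction.toPerm g := Equiv.ext hg
      show e.permCongr (L g) = σ
      rw [hL, ← h2, ← hk2, hτ]
      ext x
      simp [Equiv.permCongr_apply]
    · rintro ⟨g, rfl⟩ x y
      have h1 : ∀ z : Fin m, e.symm (((e.permCongrHom.toMonoidHom).comp L) g z) =
          L g (e.symm z) := by
        intro z
        show e.symm (e.permCongr (L g) z) = _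
        simp [Equiv.permCongr_apply]
      rw [h1, h1, hL]
      exact lift_adj (fun k x y => hinv g k x y) _ _
  · rw [hm, card_eq]

end Pool.Agent.VG
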