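import Pool.Agent.Lib_helper73.VG.Steps

/-!
# Graphs for groups given by edge-coloured digraphs
-/

set_option autoImplicit false

namespace Pool.Agent.VG

/-- The graph for a group with joined stabilizers. -/
theorem graph_of_joined {b : ℕ} (hb : 0 < b) (G : Type) [Group G] [Finite G] (n k : ℕ)
    (c : Fin n → Fin n → Option (Fin k)) (hn : 0 < n) (φ : G →* Equiv.Perm (Fin n))
    (hφ : Function.Injective ⇑φ)
    (hAut : ∀ σ : Equiv.Perm (Fin n),
      (∀ x y : Fin n, c (σ x) (σ y) = c x y) ↔ σ ∈ Set.range ⇑φ)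
    (hJ : ∀ x : Fin n, Joined b ((MulAction.stabilizer (Equiv.Perm (Fin n)) x).comap φ)) :
    ∃ (m : ℕ) (Γ : SimpleGraph (Fin m)) (ψ : G →* Equiv.Perm (Fin m)),
      Function.Injective ⇑ψ ∧
      (∀ σ : Equiv.Perm (Fin m),
        (∀ x y : Fin m, Γ.Adj (σ x) (σ y) ↔ Γ.Adj x y) ↔ σ ∈ Set.range ⇑ψ) ∧
      (m : ℝ) < (4 * b ^ 2 + 14 * b + 15) * n := by
  let : MulAction G (Fin n) := MulAction.compHom (Fin n) φ
  have hsm : ∀ (g : G) (x : Fin n), g • x = φ g x := fun _ _ => rfl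
  have : Nonempty (Fin n) := ⟨⟨0, hn⟩⟩
  obtain ⟨Y, ι, h1, h2, h3, h4⟩ := exists_sys (G := G) (Ω := Fin n) hb (fun ω => by
    have e : MulAction.stabilizer G ω =
        (MulAction.stabilizer (Equiv.Perm (Fin n)) ω).comap φ := by
      ext g
      rw [Subgroup.mem_comap, MulAction.mem_stabilizer_iff, MulAction.mem_stabilizer_iff]
      rfl
    rw [e]
    exact hJ ω)
  obtain ⟨m, Γ, ψ, a1, a2, a3⟩ := Y.graph (Ω := Fin n) ι h1 h2 h3 (by
    intro g hg
    apply hφ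
    rw [map_one]
    ext x
    rw [← hsm, hg]
    rfl) (by
    intro σ hσ
    have h5 : ∀ x y : Fin n, c (σ x) (σ y) = c x y := by
      intro x y
      obtain ⟨g, hx, hy⟩ := hσ x y
      rw [← hx, ← hy, hsm, hsm]
      exact (hAut (φ g)).2 ⟨g, rfl⟩ x y
    obtain ⟨g, hg⟩ := (hAut σ).1 h5
    refine ⟨g, fun x => ?_⟩
    rw [← hg]
    rfl)
  refine ⟨m, Γ, ψ, a1, a2, ?_⟩
  rw [Nat.card_eq_fintype_card (α := Fin n), Fintype.card_fin] at h4
  have h5 : m < (4 * b ^ 2 + 14 * b + 15) * n := by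
    rw [a3]
    have h6 : (2 * b + 4) * (Nat.card Y.N + 1) ≤
        (2 * b + 4) * ((b + 1) * (2 * n) + 1) := Nat.mul_le_mul_left _ (by omega)
    have h7 : (2 * b + 4) * ((b + 1) * (2 * n) + 1) + 2 < (4 * b ^ 2 + 14 * b + 15) * n := by
      nlinarith
    omega
  exact_mod_cast h5

end Pool.Agent.VG
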