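import Pool.Agent.Lib_helper73.VG.Sys

/-!
# The system of a permutation group whose stabilizers are joined to the group
-/

set_option autoImplicit false

namespace Pool.Agent.VG

variable {G : Type} [Group G]

/-- A chain of steps with the local condition leads from the subgroup to `G`. -/
inductive Joined (b : ℕ) : Subgroup G → Prop
  | top : Joined b ⊤
  | step {A B : Subgroup G} (h : A < B) (hl : Loc b A B) (hB : Joined b B) : Joined b A

open Classical in
/-- the next subgroup -/
noncomputable def par (b : ℕ) (A : Subgroup G) : Subgroup G :=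
  if h : ∃ B, A < B ∧ Loc b A B ∧ Joined b B then h.choose else ⊤

theorem par_lt {b : ℕ} {A : Subgroup G} (h : A ≠ ⊤) : A < par b A := by
  unfold par
  split_ifs with h1
  · exact h1.choose_spec.1
  · exact lt_top_iff_ne_top.2 h

theorem le_par {b : ℕ} (A : Subgroup G) : A ≤ par b A := by
  unfold par
  split_ifs with h1
  · exact h1.choose_spec.1.le
  · exact le_top

theorem par_spec {b : ℕ} {A : Subgroup G} (h : Joined b A) (hA : A ≠ ⊤) :
    Loc b A (par b A) ∧ Joined b (par b A) := by
  have h1 : ∃ B, A < B ∧ Loc b A B ∧ Joined b B := by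
    cases h with
    | top => exact absurd rfl hA
    | step h hl hB => exact ⟨_, h, hl, hB⟩
  unfold par
  rw [dif_pos h1]
  exact h1.choose_spec.2

theorem joined_par {b : ℕ} {A : Subgroup G} (h : Joined b A) : Joined b (par b A) := by
  by_cases hA : A = ⊤
  · have h2 : par b A = ⊤ := by
      have := le_par (b := b) A
      rw [hA] at this ⊢
      exact top_le_iff.1 this
    rw [h2]
    exact Joined.top
  · exact (par_spec h hA).2

theorem joined_iter {b : ℕ} {A : Subgroup G} (h : Joined b A) (l : ℕ) :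
    Joined b ((par b)^[l] A) := by
  induction l with
  | zero => exact h
  | succ l ih =>
    rw [Function.iterate_succ_apply']
    exact joined_par ih

section

variable [Finite G]

open Classical in
/-- the chain of a subgroup -/
noncomputable def cs (b : ℕ) (A : Subgroup G) : Finset (Subgroup G) :=
  (@Finset.univ _ (Fintype.ofFinite _)).filter (fun B => ∃ l, (par b)^[l] A = B)

theorem mem_cs {b : ℕ} {A B : Subgroup G} : B ∈ cs b A ↔ ∃ l, (par b)^[l] A = B := by
  classical
  unfold cs
  rw [Finset.mem_filter]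
  simp

theorem cs_sum (b : ℕ) (A : Subgroup G) : ∑ B ∈ cs b A, B.index + 1 ≤ 2 * A.index := by
  classical
  induction A using WellFoundedGT.induction with
  | ind A ih =>
    by_cases hA : A = ⊤
    · subst hA
      have h1 : cs b (⊤ : Subgroup G) ⊆ {⊤} := by
        intro B hB
        rw [mem_cs] at hB
        obtain ⟨l, rfl⟩ := hB
        rw [Finset.mem_singleton]
        induction l with
        | zero => rfl
        | succ l ih' =>
          rw [Function.iterate_succ_apply', ih']
          exact top_le_iff.1 (le_par _)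
      have h2 := Finset.sum_le_sum_of_subset (f := fun B : Subgroup G => B.index) h1
      simp only [Finset.sum_singleton, Subgroup.index_top] at h2 ⊢
      omega
    · have hlt := par_lt (b := b) hA
      have h1 : cs b A ⊆ insert A (cs b (par b A)) := by
        intro B hB
        rw [mem_cs] at hB
        obtain ⟨l, rfl⟩ := hB
        rw [Finset.mem_insert, mem_cs]
        cases l with
        | zero => exact Or.inl rfl
        | succ l => exact Or.inr ⟨l, rfl⟩
      have h2 := Finset.sum_le_sum_of_subset (f := fun B : Subgroup G => B.index) h1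
      have h3 : ∑ B ∈ insert A (cs b (par b A)), B.index ≤
          A.index + ∑ B ∈ cs b (par b A), B.index := by
        by_cases h4 : A ∈ cs b (par b A)
        · rw [Finset.insert_eq_of_mem h4]
          omega
        · rw [Finset.sum_insert h4]
      have h5 := ih _ hlt
      have h6 : 2 * (par b A).index ≤ A.index := by
        rw [← Subgroup.relIndex_mul_index hlt.le]
        apply Nat.mul_le_mul_right
        have h7 : A.relIndex (par b A) ≠ 0 := Subgroup.index_ne_zero_of_finite
        have h8 : A.relIndex (par b A) ≠ 1 := by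
          intro h9
          rw [Subgroup.relIndex_eq_one] at h9
          exact absurd (hlt.trans_le h9) (lt_irrefl _)
        omega
      omega

omit [Finite G] in
/-- the data of one step -/
theorem step_data {b : ℕ} (hb : 0 < b) {A B : Subgroup G} (hAB : A ≤ B)
    (hl : A ≠ ⊤ → Loc b A B) :
    ∃ (C : Subgroup G) (hC : C ≤ A) (T : Fin b → Set (G ⧸ C))
      (S : G ⧸ B → Subgroup G → Fin b → Set (G ⧸ C)), C.relIndex A ≤ b ∧
      (∀ f' : Equiv.Perm (G ⧸ C), (∀ x, prj hC (f' x) = prj hC x) →
        (∀ k x y, rl C (T k) (f' x) (f' y) ↔ rl C (T k) x y) → ∀ x, f' x = x) ∧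
      (A ≠ ⊤ → ∀ (a : G ⧸ B) (K : Subgroup G), (∀ g ∈ K, g • a = a) →
        ∀ (f : Equiv.Perm (G ⧸ A)) (f' : Equiv.Perm (G ⧸ C)),
        (∀ x, prj hC (f' x) = f (prj hC x)) →
        (∀ k x y, rl C (T k) (f' x) (f' y) ↔ rl C (T k) x y) →
        (∀ x, prj hAB x = a → prj hAB (f x) = a) →
        (∀ k x, prj hAB (prj hC x) = a →
          ((∃ g ∈ K, g • f' x ∈ S a K k) ↔ ∃ g ∈ K, g • x ∈ S a K k)) →
        ∀ x, prj hAB x = a → ∃ g ∈ K, f x = g • x) := by
  classical
  by_cases hA : A = ⊤
  · refine ⟨A, le_rfl, fun _ => ∅, fun _ _ _ => ∅, ?_, ?_, ?_⟩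
    · rw [Subgroup.relIndex_self]
      exact hb
    · intro f' hf _ x
      have := hf x
      rwa [prj_refl, prj_refl] at this
    · intro h
      exact absurd hA h
  · obtain ⟨C, hC, hB, T, h1, h2, h3⟩ := hl hA
    have h4 : ∀ (a : G ⧸ B) (K : Subgroup G), ∃ S : Fin b → Set (G ⧸ C), (∀ g ∈ K, g • a = a) →
      ∀ (f : Equiv.Perm (G ⧸ A)) (f' : Equiv.Perm (G ⧸ C)),
        (∀ x, prj hC (f' x) = f (prj hC x)) →
        (∀ k x y, rl C (T k) (f' x) (f' y) ↔ rl C (T k) x y) →
        (∀ x, prj hB x = a → prj hB (f x) = a) →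
        (∀ k x, prj hB (prj hC x) = a →
          ((∃ g ∈ K, g • f' x ∈ S k) ↔ ∃ g ∈ K, g • x ∈ S k)) →
        ∀ x, prj hB x = a → ∃ g ∈ K, f x = g • x := by
      intro a K
      by_cases hK : ∀ g ∈ K, g • a = a
      · obtain ⟨S, hS⟩ := h3 a K hK
        exact ⟨S, fun _ => hS⟩
      · exact ⟨fun _ => ∅, fun h => absurd h hK⟩
    choose S hS using h4
    exact ⟨C, hC, T, S, h1, h2, fun _ a K hK => hS a K hK⟩

section sys

variable {Ω : Type} [MulAction G Ω] [Finite Ω]

/-- the types -/
abbrev Ty (b : ℕ) (G Ω : Type) [Group G] [Finite G] [MulAction G Ω] : Type :=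
  Σ q : Quotient (MulAction.orbitRel G Ω), {B // B ∈ cs b (MulAction.stabilizer G q.out)}

/-- **The system of a permutation group.** -/
theorem exists_sys {b : ℕ} (hb : 0 < b)
    (hJ : ∀ ω : Ω, Joined b (MulAction.stabilizer G ω)) :
    ∃ (Y : Sys G b) (ι : Ω → Σ i, G ⧸ Y.sub i),
      (∀ (g : G) ω, ι (g • ω) = g • ι ω) ∧ (∀ (g : G) ω, g • ι ω = ι ω → g • ω = ω) ∧
      (∀ x : Σ i, G ⧸ Y.sub i, ∃ (ω : Ω) (l : ℕ), (Y.pS^[l]) (ι ω) = x) ∧
      Nat.card Y.N ≤ (b + 1) * (2 * Nat.card Ω) := by
  classical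
  have hfinq : Finite (Quotient (MulAction.orbitRel G Ω)) := Quotient.finite _
  have hfin : Finite (Ty b G Ω) := inferInstance
  -- the parent
  have hup : ∀ (q : Quotient (MulAction.orbitRel G Ω)) (B : Subgroup G),
      B ∈ cs b (MulAction.stabilizer G q.out) →
      par b B ∈ cs b (MulAction.stabilizer G q.out) := by
    intro q B hB
    rw [mem_cs] at hB ⊢
    obtain ⟨l, rfl⟩ := hB
    exact ⟨l + 1, Function.iterate_succ_apply' _ _ _⟩
  have hdata := fun i : Ty b G Ω => step_data hb (le_par (b := b) i.2.1) (fun hA => by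
    have h1 := mem_cs.1 i.2.2
    obtain ⟨l, hl⟩ := h1
    have h2 := joined_iter (hJ i.1.out) l
    rw [hl] at h2
    exact (par_spec h2 hA).1)
  choose C hC T S hidx hpin hloc using hdata
  let Y : Sys G b :=
    { I := Ty b G Ω
      fin := Fintype.ofFinite _
      sub := fun i => i.2.1
      cov := C
      up := fun i => ⟨i.1, ⟨par b i.2.1, hup i.1 i.2.1 i.2.2⟩⟩
      le_cov := hC
      le_up := fun i => le_par i.2.1
      lt_up := fun i hi => par_lt hi
      T := T
      S := S
      pin := hpin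
      loc := hloc }
  -- nodes
  let nd : ∀ (q : Quotient (MulAction.orbitRel G Ω)) (B : Subgroup G)
      (hB : B ∈ cs b (MulAction.stabilizer G q.out)) (g : G), Σ i, G ⧸ Y.sub i :=
    fun q B hB g => ⟨⟨q, ⟨B, hB⟩⟩, (g : G ⧸ B)⟩
  have nd_congr : ∀ q B B' hB hB' g, B = B' → nd q B hB g = nd q B' hB' g := by
    intro q B B' hB hB' g h
    subst h
    rfl
  have h0 : ∀ q : Quotient (MulAction.orbitRel G Ω),
      MulAction.stabilizer G q.out ∈ cs b (MulAction.stabilizer G q.out) :=
    fun q => mem_cs.2 ⟨0, rfl⟩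
  have hg : ∀ ω : Ω, ∃ g : G, g • (Quotient.mk (MulAction.orbitRel G Ω) ω).out = ω := by
    intro ω
    have h1 : (MulAction.orbitRel G Ω).r (Quotient.mk (MulAction.orbitRel G Ω) ω).out ω :=
      Quotient.mk_out (s := MulAction.orbitRel G Ω) ω
    obtain ⟨g, hg⟩ := h1
    refine ⟨g⁻¹, ?_⟩
    rw [← hg]
    simp
  choose gg hgg using hg
  let ι : Ω → Σ i, G ⧸ Y.sub i := fun ω =>
    nd (Quotient.mk (MulAction.orbitRel G Ω) ω) _ (h0 _) (gg ω)
  have hιeq : ∀ (q : Quotient (MulAction.orbitRel G Ω)) (g : G) (ω : Ω), g • q.out = ω →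
      ι ω = nd q _ (h0 q) g := by
    intro q g ω h1
    have h2 : Quotient.mk (MulAction.orbitRel G Ω) ω = q := by
      rw [← h1]
      conv_rhs => rw [← Quotient.out_eq q]
      apply Quotient.sound
      exact MulAction.mem_orbit _ g
    subst h2
    show nd _ _ _ (gg ω) = nd _ _ _ g
    have h3 : ((gg ω : G) : G ⧸ MulAction.stabilizer G
        (Quotient.mk (MulAction.orbitRel G Ω) ω).out) = (g : G ⧸ _) := by
      rw [QuotientGroup.eq, MulAction.mem_stabilizer_iff, mul_smul, h1, inv_smul_eq_iff]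
      exact (hgg ω).symm
    show (⟨_, _⟩ : Σ i, G ⧸ Y.sub i) = ⟨_, _⟩
    exact congrArg (Sigma.mk _) h3
  refine ⟨Y, ι, ?_, ?_, ?_, ?_⟩
  · intro g ω
    rw [hιeq (Quotient.mk (MulAction.orbitRel G Ω) ω) (g * gg ω) (g • ω) (by
      rw [mul_smul, hgg])]
    rfl
  · intro g ω h1
    have h2 : (⟨_, ((g * gg ω : G) : G ⧸ _)⟩ : Σ i, G ⧸ Y.sub i) = ⟨_, (gg ω : G ⧸ _)⟩ := h1
    have h3 := eq_of_heq (Sigma.mk.inj h2).2
    have h4 : (((g * gg ω : G) : G) : G ⧸ MulAction.stabilizer G
        (Quotient.mk (MulAction.orbitRel G Ω) ω).out) = ((gg ω : G) : G ⧸ _) := h3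
    rw [QuotientGroup.eq, MulAction.mem_stabilizer_iff, mul_smul, hgg, inv_smul_eq_iff,
      mul_smul, hgg] at h4
    exact h4.symm
  · rintro ⟨⟨q, ⟨B, hB⟩⟩, z⟩
    have hB' := mem_cs.1 hB
    obtain ⟨l, hl⟩ := hB'
    obtain ⟨g, rfl⟩ := QuotientGroup.mk_surjective z
    refine ⟨g • q.out, l, ?_⟩
    rw [hιeq q g _ rfl]
    have h1 : ∀ m (hm : (par b)^[m] (MulAction.stabilizer G q.out) ∈
        cs b (MulAction.stabilizer G q.out)),
        (Y.pS^[m]) (nd q _ (h0 q) g) = nd q _ hm g := by
      intro m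
      induction m with
      | zero => intro _; rfl
      | succ m ih =>
        intro hm
        rw [Function.iterate_succ_apply', ih (mem_cs.2 ⟨m, rfl⟩)]
        show nd q (par b _) _ g = _
        exact nd_congr _ _ _ _ _ _ (Function.iterate_succ_apply' _ _ _).symm
    rw [h1 l (mem_cs.2 ⟨l, rfl⟩)]
    exact nd_congr _ _ _ _ _ _ hl
  · have hY : Fintype Y.I := Y.fin
    have hfq : Fintype (Quotient (MulAction.orbitRel G Ω)) := Fintype.ofFinite _
    have hN : Nat.card Y.N = ∑ i : Ty b G Ω, (i.2.1.index + (C i).index) := by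
      rw [Nat.card_sum, Nat.card_sigma, Nat.card_sigma, ← Finset.sum_add_distrib]
      apply Finset.sum_congr
      · ext i
        simp
      · intro i _
        rfl
    rw [hN]
    have h1 : ∀ i : Ty b G Ω, i.2.1.index + (C i).index ≤ (b + 1) * i.2.1.index := by
      intro i
      have h2 := Subgroup.relIndex_mul_index (hC i)
      have h3 := Nat.mul_le_mul_right i.2.1.index (hidx i)
      rw [h2] at h3
      rw [add_mul, one_mul, add_comm]
      omega
    refine (Finset.sum_le_sum fun i _ => h1 i).trans ?_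
    rw [← Finset.mul_sum]
    apply Nat.mul_le_mul_left
    have e : ∑ i : Ty b G Ω, i.2.1.index = ∑ q : Quotient (MulAction.orbitRel G Ω),
        ∑ B : {B // B ∈ cs b (MulAction.stabilizer G q.out)}, B.1.index := by
      have h := Fintype.sum_sigma (fun i : Ty b G Ω => i.2.1.index)
      rw [← h]
      exact Finset.sum_congr (by ext x; simp only [Finset.mem_univ]) (fun _ _ => rfl)
    rw [e]
    have h2 : ∀ q : Quotient (MulAction.orbitRel G Ω),
        ∑ B : {B // B ∈ cs b (MulAction.stabilizer G q.out)}, B.1.index ≤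
        2 * (MulAction.stabilizer G q.out).index := by
      intro q
      have h3 := cs_sum b (MulAction.stabilizer G q.out)
      rw [Finset.sum_coe_sort (cs b (MulAction.stabilizer G q.out)) (fun B => B.index)]
      omega
    refine (Finset.sum_le_sum fun q _ => h2 q).trans ?_
    rw [← Finset.mul_sum]
    apply Nat.mul_le_mul_left
    rw [Nat.card_congr (MulAction.selfEquivSigmaOrbitsQuotientStabilizer G Ω), Nat.card_sigma]
    exact le_of_eq rfl

end sys

end

end Pool.Agent.VG
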