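import Pool.Agent.Lib_helper73.VG.Aff
import Pool.Agent.Lib_helper73.VG.Tree

/-!
# Chains of subgroups
-/

set_option autoImplicit false

namespace Pool.Agent.VG

variable {G : Type} [Group G]

theorem relIndex_of_mul {A B M : Subgroup G} (hM : M ≤ B)
    (hB : ∀ g ∈ B, ∃ x ∈ M, x⁻¹ * g ∈ A) : A.relIndex M = A.relIndex B := by
  refine Nat.card_congr (Equiv.ofBijective (Subgroup.quotientSubgroupOfEmbeddingOfLE A hM)
    ⟨(Subgroup.quotientSubgroupOfEmbeddingOfLE A hM).injective, ?_⟩)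
  intro y
  induction y using QuotientGroup.induction_on with
  | H g =>
    obtain ⟨x, hx, hx2⟩ := hB g.1 g.2
    refine ⟨((⟨x, hx⟩ : M) : M ⧸ A.subgroupOf M), ?_⟩
    show (((Subgroup.inclusion hM) ⟨x, hx⟩ : B) : B ⧸ A.subgroupOf B) = _
    rw [QuotientGroup.eq]
    exact hx2

/-- **Affine steps.** -/
theorem loc_affine [Finite G] {b : ℕ} (hb : 2 ≤ b) {A B M : Subgroup G} (h : A ≤ B)
    (hp : (A.relIndex B).Prime) (hMB : M ≤ B) (hMn : ∀ g ∈ B, ∀ x ∈ M, g * x * g⁻¹ ∈ M)
    (hMA : ¬ M ≤ A) (hc : ∀ x ∈ M, ∀ y ∈ M, x * y * x⁻¹ * y⁻¹ ∈ A) : Loc b A B := by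
  classical
  set p := A.relIndex B with hpd
  have : Fact p.Prime := ⟨hp⟩
  -- `B = M A`
  let S : Subgroup G :=
    { carrier := {g | g ∈ B ∧ ∃ x ∈ M, x⁻¹ * g ∈ A}
      one_mem' := ⟨B.one_mem, 1, M.one_mem, by simp [A.one_mem]⟩
      mul_mem' := by
        rintro g g' ⟨h0, x, hx, h1⟩ ⟨h0', x', hx', h1'⟩
        refine ⟨B.mul_mem h0 h0', x * ((x⁻¹ * g) * x' * (x⁻¹ * g)⁻¹),
          M.mul_mem hx (hMn _ (h h1) _ hx'), ?_⟩
        have e : (x * ((x⁻¹ * g) * x' * (x⁻¹ * g)⁻¹))⁻¹ * (g * g') =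
            (x⁻¹ * g) * (x'⁻¹ * g') := by group
        rw [e]
        exact A.mul_mem h1 h1'
      inv_mem' := by
        rintro g ⟨h0, x, hx, h1⟩
        refine ⟨B.inv_mem h0, (x⁻¹ * g)⁻¹ * x⁻¹ * ((x⁻¹ * g)⁻¹)⁻¹,
          hMn _ (B.inv_mem (h h1)) _ (M.inv_mem hx), ?_⟩
        have e : ((x⁻¹ * g)⁻¹ * x⁻¹ * ((x⁻¹ * g)⁻¹)⁻¹)⁻¹ * g⁻¹ = (x⁻¹ * g)⁻¹ := by group
        rw [e]
        exact A.inv_mem h1 }
  have hSB : S ≤ B := fun g hg => hg.1
  have hAS : A ≤ S := fun g hg => ⟨h hg, 1, M.one_mem, by simpa using hg⟩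
  have hMS : M ≤ S := fun g hg => ⟨hMB hg, g, hg, by simp [A.one_mem]⟩
  have hBM : ∀ g ∈ B, ∃ x ∈ M, x⁻¹ * g ∈ A := by
    have h1 := Subgroup.relIndex_mul_relIndex A S B hAS hSB
    have h2 : A.relIndex S ≠ 1 := by
      intro h3
      rw [Subgroup.relIndex_eq_one] at h3
      exact hMA (hMS.trans h3)
    have h3 : A.relIndex S = p := by
      have h4 : A.relIndex S ∣ p := ⟨_, h1.symm⟩
      exact (hp.eq_one_or_self_of_dvd _ h4).resolve_left h2
    have h4 : S.relIndex B = 1 := by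
      rw [h3, ← hpd] at h1
      exact Nat.eq_of_mul_eq_mul_left hp.pos (by rw [h1, mul_one])
    rw [Subgroup.relIndex_eq_one] at h4
    intro g hg
    exact (h4 hg).2
  have hcard : Nat.card (M ⧸ A.subgroupOf M) = p := relIndex_of_mul hMB hBM
  -- the quotient group
  have hnorm : (A.subgroupOf M).Normal := by
    constructor
    intro n hn g
    rw [Subgroup.mem_subgroupOf] at hn ⊢
    have h1 := hc g.1 g.2 n.1 n.2
    have h2 := A.mul_mem h1 hn
    rwa [inv_mul_cancel_right] at h2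
  obtain ⟨m, hm, hmA⟩ := Set.not_subset.1 hMA
  let q : M → M ⧸ A.subgroupOf M := fun x => (x : M ⧸ A.subgroupOf M)
  set q0 : M ⧸ A.subgroupOf M := ((⟨m, hm⟩ : M) : M ⧸ A.subgroupOf M) with hq0
  have hq1 : q0 ≠ 1 := by
    intro h1
    rw [hq0, QuotientGroup.eq_one_iff, Subgroup.mem_subgroupOf] at h1
    exact hmA h1
  have hord : orderOf q0 = p := by
    have h1 : orderOf q0 ∣ p := by
      rw [← hcard]
      exact orderOf_dvd_natCard q0
    exact (hp.eq_one_or_self_of_dvd _ h1).resolve_left fun h2 => hq1 (orderOf_eq_one_iff.1 h2)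
  have hpow : ∀ x : M ⧸ A.subgroupOf M, ∃ k : ℕ, q0 ^ k = x := by
    intro x
    exact mem_powers_of_prime_card hcard hq1
  have hexp : ∀ k : ℕ, q0 ^ ((k : ZMod p).val) = q0 ^ k := by
    intro k
    rw [ZMod.val_natCast]
    conv_lhs => rw [← hord]
    exact pow_mod_orderOf q0 k
  have hmem : ∀ (k : ℕ) (x : G) (hx : x ∈ M), (m ^ k)⁻¹ * x ∈ A ↔
      q0 ^ k = ((⟨x, hx⟩ : M) : M ⧸ A.subgroupOf M) := by
    intro k x hx
    have h1 : q0 ^ k = (((⟨m, hm⟩ : M) ^ k : M) : M ⧸ A.subgroupOf M) := rfl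
    rw [h1, QuotientGroup.eq, Subgroup.mem_subgroupOf]
    rfl
  refine loc_aff (p := p) hb h (fun i => m ^ i.val) (fun i => hMB (M.pow_mem hm _)) ?_ ?_ ?_ ?_
  · intro i j hij
    have h1 := (hmem i.val (m ^ j.val) (M.pow_mem hm _)).1 hij
    have h2 : (((⟨m ^ j.val, M.pow_mem hm _⟩ : M)) : M ⧸ A.subgroupOf M) = q0 ^ j.val := rfl
    rw [h2] at h1
    have h3 := pow_injOn_Iio_orderOf (x := q0) (by
      rw [hord]; exact ZMod.val_lt i) (by rw [hord]; exact ZMod.val_lt j) h1
    exact ZMod.val_injective p h3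
  · intro g hg
    obtain ⟨x, hx, hx2⟩ := hBM g hg
    obtain ⟨k, hk⟩ := hpow ((⟨x, hx⟩ : M) : M ⧸ A.subgroupOf M)
    refine ⟨(k : ZMod p), ?_⟩
    have h1 := (hmem ((k : ZMod p).val) x hx).2 (by rw [hexp, hk])
    have h2 := A.mul_mem h1 hx2
    have e : (m ^ ((k : ZMod p).val))⁻¹ * x * (x⁻¹ * g) = (m ^ ((k : ZMod p).val))⁻¹ * g := by
      group
    rwa [e] at h2
  · intro i j
    show (m ^ (i + j).val)⁻¹ * (m ^ i.val * m ^ j.val) ∈ A
    rw [← pow_add, hmem _ _ (M.pow_mem hm _)]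
    show q0 ^ (i + j).val = q0 ^ (i.val + j.val)
    rw [← hexp (i.val + j.val)]
    congr 2
    push_cast
    rw [ZMod.natCast_zmod_val, ZMod.natCast_zmod_val]
  · intro a ha
    have hx : a * m * a⁻¹ ∈ M := hMn a (h ha) m hm
    obtain ⟨k, hk⟩ := hpow ((⟨a * m * a⁻¹, hx⟩ : M) : M ⧸ A.subgroupOf M)
    refine ⟨(k : ZMod p), ?_, ?_⟩
    · intro h1
      have h2 := hexp k
      rw [h1, ZMod.val_zero, pow_zero, hk, eq_comm, QuotientGroup.eq_one_iff,
        Subgroup.mem_subgroupOf] at h2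
      have h3 := A.mul_mem (A.mul_mem (A.inv_mem ha) h2) ha
      have e : a⁻¹ * (a * m * a⁻¹) * a = m := by group
      apply hmA
      rw [← e]
      exact h3
    · intro i
      show (m ^ ((k : ZMod p) * i).val)⁻¹ * (a * m ^ i.val) ∈ A
      have e : a * m ^ i.val = (a * m * a⁻¹) ^ i.val * a := by
        rw [conj_pow, inv_mul_cancel_right]
      rw [e, ← mul_assoc]
      refine A.mul_mem ?_ ha
      rw [hmem _ _ (M.pow_mem hx _)]
      show _ = ((⟨a * m * a⁻¹, hx⟩ : M) : M ⧸ A.subgroupOf M) ^ i.val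
      rw [← hk, ← pow_mul, ← hexp (k * i.val)]
      congr 2
      push_cast
      rw [ZMod.natCast_zmod_val]

/-- **Chains of subgroups.** `Chain b A`: there is a chain `A = A₀ ≤ A₁ ≤ … ≤ A_r = G` in which every
step `A_i ≤ A_{i+1}`
* has index at most `b`, or
* `A_i` is normal in `A_{i+1}` and `A_{i+1}` is generated by `A_i` and `b` elements, or
* has prime index and `A_{i+1}` has a normal subgroup `M`, not contained in `A_i`, whose commutators
  lie in `A_i` (that is, `A_{i+1}` acts on the `p` cosets of `A_i` as a subgroup of `AGL(1,p)`). -/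
inductive Chain (b : ℕ) : Subgroup G → Prop
  | top : Chain b ⊤
  | index {A B : Subgroup G} (h : A ≤ B) (hi : A.relIndex B ≤ b) (hB : Chain b B) : Chain b A
  | normal {A B : Subgroup G} (h : A ≤ B) (hn : ∀ g ∈ B, ∀ a ∈ A, g * a * g⁻¹ ∈ A)
      (s : Fin b → G) (hgen : B = Subgroup.closure ((A : Set G) ∪ Set.range s))
      (hB : Chain b B) : Chain b A
  | affine {A B M : Subgroup G} (h : A ≤ B) (hp : (A.relIndex B).Prime) (hMB : M ≤ B)
      (hMn : ∀ g ∈ B, ∀ x ∈ M, g * x * g⁻¹ ∈ M) (hMA : ¬ M ≤ A)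
      (hc : ∀ x ∈ M, ∀ y ∈ M, x * y * x⁻¹ * y⁻¹ ∈ A) (hB : Chain b B) : Chain b A

theorem Chain.joined [Finite G] {b : ℕ} (hb : 2 ≤ b) {A : Subgroup G} (h : Chain b A) :
    Joined b A := by
  induction h with
  | top => exact Joined.top
  | @index A B h hi _ ih =>
    rcases eq_or_lt_of_le h with rfl | hlt
    · exact ih
    · exact Joined.step hlt (loc_index (by omega) h hi Subgroup.index_ne_zero_of_finite) ih
  | @normal A B h hn s hgen _ ih =>
    rcases eq_or_lt_of_le h with rfl | hlt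
    · exact ih
    · refine Joined.step hlt (loc_normal (by omega) h (fun g hg a ha => ?_) s (fun i => ?_)
        hgen.le) ih
      · have := hn g⁻¹ (B.inv_mem hg) a ha
        rwa [inv_inv] at this
      · rw [hgen]
        exact Subgroup.subset_closure (Or.inr ⟨i, rfl⟩)
  | @affine A B M h hp hMB hMn hMA hc _ ih =>
    rcases eq_or_lt_of_le h with rfl | hlt
    · exact ih
    · exact Joined.step hlt (loc_affine hb h hp hMB hMn hMA hc) ih

/-- A group is supersolvable (for finite groups): it has a series of normal subgroups whose factors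
have prime order. -/
def Supersolvable (G : Type) [Group G] : Prop :=
  ∃ (r : ℕ) (N : ℕ → Subgroup G), N 0 = ⊥ ∧ N r = ⊤ ∧
    ∀ i < r, (N i).Normal ∧ (N (i + 1)).Normal ∧ N i ≤ N (i + 1) ∧
      ((N i).relIndex (N (i + 1))).Prime

theorem Supersolvable.chain {b : ℕ} (h : Supersolvable G) (A : Subgroup G) : Chain b A := by
  classical
  obtain ⟨r, N, h0, hr, hN⟩ := h
  have key : ∀ k, k ≤ r → Chain b (A ⊔ N (r - k)) := by
    intro k
    induction k with
    | zero =>
      intro _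
      rw [Nat.sub_zero, hr, sup_top_eq]
      exact Chain.top
    | succ k ih =>
      intro hk
      have ih' := ih (by omega)
      obtain ⟨hn, hn1, hle, hp⟩ := hN (r - (k + 1)) (by omega)
      have e : r - k = r - (k + 1) + 1 := by omega
      rw [e] at ih'
      set i := r - (k + 1)
      set A' := A ⊔ N i with hA'
      set B := A ⊔ N (i + 1) with hB
      have hAB : A' ≤ B := sup_le_sup_left hle A
      by_cases hBA : B ≤ A'
      · rw [le_antisymm hAB hBA]
        exact ih'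
      · have hMA : ¬ N (i + 1) ≤ A' := fun h1 => hBA (sup_le le_sup_left h1)
        have hMB : N (i + 1) ≤ B := le_sup_right
        have hmul : ∀ g ∈ B, ∃ x ∈ N (i + 1), x⁻¹ * g ∈ A' := by
          intro g hg
          rw [hB, sup_comm] at hg
          obtain ⟨x, hx, y, hy, rfl⟩ := Subgroup.mem_sup_of_normal_left.1 hg
          refine ⟨x, hx, ?_⟩
          rw [inv_mul_cancel_left]
          exact (le_sup_left : A ≤ A') hy
        have hrel := relIndex_of_mul hMB hmul
        have hdvd : A'.relIndex (N (i + 1)) ∣ (N i).relIndex (N (i + 1)) :=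
          Subgroup.relIndex_dvd_of_le_left _ le_sup_right
        have hne1 : A'.relIndex (N (i + 1)) ≠ 1 := by
          intro h1
          rw [Subgroup.relIndex_eq_one] at h1
          exact hMA h1
        have hpr : (A'.relIndex B).Prime := by
          rw [← hrel, (hp.eq_one_or_self_of_dvd _ hdvd).resolve_left hne1]
          exact hp
        refine Chain.affine hAB hpr hMB (fun g _ x hx => hn1.conj_mem x hx g) hMA ?_ ih'
        intro x hx y hy
        apply (le_sup_right : N i ≤ A')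
        have hnq : ((N i).subgroupOf (N (i + 1))).Normal := hn.subgroupOf _
        have hcyc : IsCyclic (N (i + 1) ⧸ (N i).subgroupOf (N (i + 1))) := by
          have : Fact ((N i).relIndex (N (i + 1))).Prime := ⟨hp⟩
          exact isCyclic_of_prime_card (p := (N i).relIndex (N (i + 1))) rfl
        have hcomm : ∀ u v : N (i + 1) ⧸ (N i).subgroupOf (N (i + 1)), u * v = v * u := by
          intro u v
          let := IsCyclic.commGroup (α := N (i + 1) ⧸ (N i).subgroupOf (N (i + 1)))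
          exact mul_comm u v
        have h1 := hcomm ((⟨x, hx⟩ : N (i + 1)) : N (i + 1) ⧸ (N i).subgroupOf (N (i + 1)))
          ((⟨y, hy⟩ : N (i + 1)) : N (i + 1) ⧸ (N i).subgroupOf (N (i + 1)))
        have h2 : (((⟨y, hy⟩ * ⟨x, hx⟩ : N (i + 1))) : N (i + 1) ⧸ (N i).subgroupOf (N (i + 1))) =
          (((⟨x, hx⟩ * ⟨y, hy⟩ : N (i + 1))) : N (i + 1) ⧸ (N i).subgroupOf (N (i + 1))) := h1.symm
        rw [QuotientGroup.eq, Subgroup.mem_subgroupOf] at h2
        have h3 : (y * x)⁻¹ * (x * y) ∈ N i := h2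
        have h4 := hn.conj_mem _ h3 (y * x)
        have e4 : y * x * ((y * x)⁻¹ * (x * y)) * (y * x)⁻¹ = x * y * x⁻¹ * y⁻¹ := by group
        rwa [e4] at h4
  have := key r le_rfl
  rwa [Nat.sub_self, h0, sup_bot_eq] at this

/-- Nilpotent groups. -/
theorem chain_of_nilpotent [Finite G] {b : ℕ} (hb : 0 < b) (hG : Group.IsNilpotent G)
    (A : Subgroup G) : Chain b A := by
  induction A using WellFoundedGT.induction with
  | ind A ih =>
    by_cases hA : A = ⊤
    · rw [hA]
      exact Chain.top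
    · have hlt := Group.normalizerCondition_of_isNilpotent (G := G) A (lt_top_iff_ne_top.2 hA)
      obtain ⟨s, hs, hsA⟩ := Set.exists_of_ssubset hlt
      set B := Subgroup.closure ((A : Set G) ∪ Set.range (fun _ : Fin b => s)) with hB
      have hAB : A ≤ B := fun a ha => Subgroup.subset_closure (Or.inl ha)
      have hsB : s ∈ B := Subgroup.subset_closure (Or.inr ⟨⟨0, hb⟩, rfl⟩)
      have hBN : B ≤ Subgroup.normalizer (A : Set G) := by
        rw [hB, Subgroup.closure_le]
        rintro x (hx | ⟨_, rfl⟩)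
        · exact hlt.le hx
        · exact hs
      refine Chain.normal hAB (fun g hg a ha => ?_) (fun _ => s) hB (ih B ?_)
      · exact (Subgroup.mem_normalizer_iff.1 (hBN hg) a).1 ha
      · refine lt_of_le_of_ne hAB fun e => hsA ?_
        rw [e]
        exact hsB

end Pool.Agent.VG
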