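import Pool.Agent.Lib_helper73.VG.Gad
import Pool.Agent.Lib_helper73.VG.Loc

/-!
# Systems of coset spaces and the theorem on their automorphisms
-/

set_option autoImplicit false

namespace Pool.Agent.VG

/-- The gadget theorem for relations indexed by a finite type. -/
theorem gadget' {G N κ : Type} [Group G] [MulAction G N] [Nonempty N] [Finite N] [Fintype κ]
    (rels : κ → N → N → Prop) (hfaith : ∀ g : G, (∀ x : N, g • x = x) → g = 1)
    (hinv : ∀ (g : G) k x y, rels k (g • x) (g • y) ↔ rels k x y)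
    (hfull : ∀ h : Equiv.Perm N, (∀ k x y, rels k (h x) (h y) ↔ rels k x y) →
      ∃ g : G, ∀ x, h x = g • x) :
    ∃ (m : ℕ) (Γ : SimpleGraph (Fin m)) (ψ : G →* Equiv.Perm (Fin m)),
      Function.Injective ⇑ψ ∧
      (∀ σ : Equiv.Perm (Fin m),
        (∀ x y : Fin m, Γ.Adj (σ x) (σ y) ↔ Γ.Adj x y) ↔ σ ∈ Set.range ⇑ψ) ∧
      m = (Fintype.card κ + 2) * (Nat.card N + 1) + 2 := by
  refine gadget (fun k => rels ((Fintype.equivFin κ).symm k)) hfaith
    (fun g k x y => hinv g _ x y) fun h hh => hfull h fun k x y => ?_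
  have := hh (Fintype.equivFin κ k) x y
  simpa using this

variable {G : Type} [Group G]

/-- A finite system of coset spaces of `G` with projections to parents and coverings. -/
structure Sys (G : Type) [Group G] (b : ℕ) where
  /-- the types -/
  I : Type
  /-- finitely many types -/
  fin : Fintype I
  /-- the subgroup of a type -/
  sub : I → Subgroup G
  /-- the subgroup of the covering of a type -/
  cov : I → Subgroup G
  /-- the parent of a type -/
  up : I → I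
  le_cov : ∀ i, cov i ≤ sub i
  le_up : ∀ i, sub i ≤ sub (up i)
  lt_up : ∀ i, sub i ≠ ⊤ → sub i < sub (up i)
  /-- the relations on the covering -/
  T : ∀ i, Fin b → Set (G ⧸ cov i)
  /-- the marked sets -/
  S : ∀ i, G ⧸ sub (up i) → Subgroup G → Fin b → Set (G ⧸ cov i)
  pin : ∀ i (f' : Equiv.Perm (G ⧸ cov i)), (∀ x, prj (le_cov i) (f' x) = prj (le_cov i) x) →
      (∀ k x y, rl (cov i) (T i k) (f' x) (f' y) ↔ rl (cov i) (T i k) x y) → ∀ x, f' x = x
  loc : ∀ i, sub i ≠ ⊤ → ∀ (a : G ⧸ sub (up i)) (K : Subgroup G), (∀ g ∈ K, g • a = a) →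
      ∀ (f : Equiv.Perm (G ⧸ sub i)) (f' : Equiv.Perm (G ⧸ cov i)),
        (∀ x, prj (le_cov i) (f' x) = f (prj (le_cov i) x)) →
        (∀ k x y, rl (cov i) (T i k) (f' x) (f' y) ↔ rl (cov i) (T i k) x y) →
        (∀ x, prj (le_up i) x = a → prj (le_up i) (f x) = a) →
        (∀ k x, prj (le_up i) (prj (le_cov i) x) = a →
          ((∃ g ∈ K, g • f' x ∈ S i a K k) ↔ ∃ g ∈ K, g • x ∈ S i a K k)) →
        ∀ x, prj (le_up i) x = a → ∃ g ∈ K, f x = g • x

namespace Sys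

variable {b : ℕ} (Y : Sys G b)

/-- the nodes -/
abbrev N : Type := (Σ i, G ⧸ Y.sub i) ⊕ (Σ i, G ⧸ Y.cov i)

/-- the parent of a node of the system itself -/
def pS : (Σ i, G ⧸ Y.sub i) → Σ i, G ⧸ Y.sub i
  | ⟨i, z⟩ => ⟨Y.up i, prj (Y.le_up i) z⟩

/-- the parent of a node -/
def pN : Y.N → Y.N
  | .inl x => .inl (Y.pS x)
  | .inr ⟨i, z⟩ => .inl ⟨i, prj (Y.le_cov i) z⟩

/-- the number of the type of a node -/
noncomputable def tp : Y.N → ℕ
  | .inl ⟨i, _⟩ => 2 * (@Fintype.equivFin _ Y.fin i).1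
  | .inr ⟨i, _⟩ => 2 * (@Fintype.equivFin _ Y.fin i).1 + 1

/-- representatives of the orbits of pairs -/
noncomputable def rep (i j : Y.I) (z : (G ⧸ Y.sub i) × (G ⧸ Y.sub j)) :
    (G ⧸ Y.sub i) × (G ⧸ Y.sub j) :=
  (Quotient.mk (MulAction.orbitRel G _) z).out

theorem rep_smul (i j : Y.I) (g : G) (z : (G ⧸ Y.sub i) × (G ⧸ Y.sub j)) :
    Y.rep i j (g • z) = Y.rep i j z := by
  unfold rep
  congr 1
  apply Quotient.sound
  show g • z ∈ MulAction.orbit G z
  exact MulAction.mem_orbit z g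

theorem exists_rep (i j : Y.I) (z : (G ⧸ Y.sub i) × (G ⧸ Y.sub j)) :
    ∃ g : G, g • z = Y.rep i j z := by
  have h : (MulAction.orbitRel G _).r (Y.rep i j z) z :=
    Quotient.mk_out (s := MulAction.orbitRel G ((G ⧸ Y.sub i) × (G ⧸ Y.sub j))) z
  exact h

/-- the relation that marks the sets `S` -/
def RR (i j : Y.I) (k : Fin b) (z : G ⧸ Y.cov i) (w : G ⧸ Y.sub j) : Prop :=
  ∃ g : G, g • (prj (Y.le_up i) (prj (Y.le_cov i) z), w) =
      Y.rep (Y.up i) j (prj (Y.le_up i) (prj (Y.le_cov i) z), w) ∧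
    g • z ∈ Y.S i (Y.rep (Y.up i) j (prj (Y.le_up i) (prj (Y.le_cov i) z), w)).1
      (MulAction.stabilizer G (Y.rep (Y.up i) j (prj (Y.le_up i) (prj (Y.le_cov i) z), w))) k

theorem RR_smul (i j : Y.I) (k : Fin b) (u : G) (z : G ⧸ Y.cov i) (w : G ⧸ Y.sub j) :
    Y.RR i j k (u • z) (u • w) ↔ Y.RR i j k z w := by
  have e : (prj (Y.le_up i) (prj (Y.le_cov i) (u • z)), u • w) =
      u • (prj (Y.le_up i) (prj (Y.le_cov i) z), w) := by
    rw [prj_smul, prj_smul]
    rfl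
  unfold RR
  rw [e, rep_smul]
  constructor
  · rintro ⟨g, h1, h2⟩
    refine ⟨g * u, ?_, ?_⟩
    · rw [mul_smul]
      exact h1
    · rw [mul_smul]
      exact h2
  · rintro ⟨g, h1, h2⟩
    refine ⟨g * u⁻¹, ?_, ?_⟩
    · rw [mul_smul, inv_smul_smul]
      exact h1
    · rw [mul_smul, inv_smul_smul]
      exact h2

/-- all relations -/
def rels : (Fin 2 ⊕ (Fin b ⊕ Fin b)) → Y.N → Y.N → Prop
  | .inl 0, x, y => Y.tp x < Y.tp y
  | .inl 1, x, y => y = Y.pN x
  | .inr (.inl k), x, y => ∃ (i : Y.I) (z w : G ⧸ Y.cov i), x = .inr ⟨i, z⟩ ∧ y = .inr ⟨i, w⟩ ∧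
      rl (Y.cov i) (Y.T i k) z w
  | .inr (.inr k), x, y => ∃ (i j : Y.I) (z : G ⧸ Y.cov i) (w : G ⧸ Y.sub j),
      x = .inr ⟨i, z⟩ ∧ y = .inl ⟨j, w⟩ ∧ Y.RR i j k z w

theorem tp_smul (g : G) (x : Y.N) : Y.tp (g • x) = Y.tp x := by
  rcases x with ⟨i, z⟩ | ⟨i, z⟩ <;> rfl

theorem pN_smul (g : G) (x : Y.N) : Y.pN (g • x) = g • Y.pN x := by
  rcases x with ⟨i, z⟩ | ⟨i, z⟩
  · show (Sum.inl ⟨Y.up i, prj (Y.le_up i) (g • z)⟩ : Y.N) =
      Sum.inl ⟨Y.up i, g • prj (Y.le_up i) z⟩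
    rw [prj_smul]
  · show (Sum.inl ⟨i, prj (Y.le_cov i) (g • z)⟩ : Y.N) = Sum.inl ⟨i, g • prj (Y.le_cov i) z⟩
    rw [prj_smul]

theorem rels_smul_imp (g : G) (k) (x y : Y.N) (h : Y.rels k x y) : Y.rels k (g • x) (g • y) := by
  rcases k with k | k | k
  · fin_cases k
    · show Y.tp (g • x) < Y.tp (g • y)
      rw [tp_smul, tp_smul]
      exact h
    · show g • y = Y.pN (g • x)
      rw [pN_smul]
      exact congrArg (fun t => g • t) h
  · obtain ⟨i, z, w, rfl, rfl, h⟩ := h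
    exact ⟨i, g • z, g • w, rfl, rfl, (rl_smul _ _ g z w).2 h⟩
  · obtain ⟨i, j, z, w, rfl, rfl, h⟩ := h
    exact ⟨i, j, g • z, g • w, rfl, rfl, (Y.RR_smul i j k g z w).2 h⟩

theorem rels_smul (g : G) (k) (x y : Y.N) : Y.rels k (g • x) (g • y) ↔ Y.rels k x y := by
  refine ⟨fun h => ?_, Y.rels_smul_imp g k x y⟩
  have := Y.rels_smul_imp g⁻¹ k _ _ h
  rwa [inv_smul_smul, inv_smul_smul] at this

theorem rels_rl (i : Y.I) (k : Fin b) (z w : G ⧸ Y.cov i) :
    Y.rels (.inr (.inl k)) (.inr ⟨i, z⟩) (.inr ⟨i, w⟩) ↔ rl (Y.cov i) (Y.T i k) z w := by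
  constructor
  · rintro ⟨i', z', w', h1, h2, h3⟩
    have h4 := Sigma.mk.inj (Sum.inr.inj h1)
    have h5 := Sigma.mk.inj (Sum.inr.inj h2)
    obtain ⟨h6, h7⟩ := h4
    subst h6
    obtain rfl := eq_of_heq h7
    obtain rfl := eq_of_heq h5.2
    exact h3
  · intro h3
    exact ⟨i, z, w, rfl, rfl, h3⟩

section auto

variable [Finite G] (h : Equiv.Perm Y.N) (hh : ∀ k x y, Y.rels k (h x) (h y) ↔ Y.rels k x y)

include hh

theorem tp_h (x : Y.N) : Y.tp (h x) = Y.tp x := by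
  classical
  have := Y.fin
  have : ∀ i, Finite (G ⧸ Y.sub i) := fun i => inferInstance
  have : ∀ i, Finite (G ⧸ Y.cov i) := fun i => inferInstance
  have : Finite Y.N := inferInstance
  have := Fintype.ofFinite Y.N
  -- the number of nodes of smaller type
  let c : Y.N → ℕ := fun x => (Finset.univ.filter (fun y => Y.tp y < Y.tp x)).card
  have hc : c (h x) = c x := by
    refine (Finset.card_bij (fun y _ => h y) ?_ ?_ ?_).symm
    · intro y hy
      rw [Finset.mem_filter] at hy ⊢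
      exact ⟨Finset.mem_univ _, (hh (.inl 0) y x).2 hy.2⟩
    · intro y _ y' _ e
      exact h.injective e
    · intro y hy
      rw [Finset.mem_filter] at hy
      refine ⟨h.symm y, ?_, by simp⟩
      rw [Finset.mem_filter]
      refine ⟨Finset.mem_univ _, (hh (.inl 0) (h.symm y) x).1 ?_⟩
      rw [Equiv.apply_symm_apply]
      exact hy.2
  have hlt : ∀ x y : Y.N, Y.tp x < Y.tp y → c x < c y := by
    intro x y hxy
    apply Finset.card_lt_card
    rw [Finset.ssubset_iff_of_subset]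
    · exact ⟨x, by simpa using hxy, by simp⟩
    · intro z hz
      rw [Finset.mem_filter] at hz ⊢
      exact ⟨hz.1, hz.2.trans hxy⟩
  rcases lt_trichotomy (Y.tp (h x)) (Y.tp x) with h1 | h1 | h1
  · have := hlt _ _ h1
    omega
  · exact h1
  · have := hlt _ _ h1
    omega

theorem exists_maps : ∃ (f : ∀ i, Equiv.Perm (G ⧸ Y.sub i)) (f' : ∀ i, Equiv.Perm (G ⧸ Y.cov i)),
    (∀ i z, h (.inl ⟨i, z⟩) = .inl ⟨i, f i z⟩) ∧ (∀ i z, h (.inr ⟨i, z⟩) = .inr ⟨i, f' i z⟩) := by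
  have h1 : ∀ i (z : G ⧸ Y.sub i), ∃ w : G ⧸ Y.sub i, h (.inl ⟨i, z⟩) = .inl ⟨i, w⟩ := by
    intro i z
    have h2 := Y.tp_h h hh (.inl ⟨i, z⟩)
    rcases h3 : h (.inl ⟨i, z⟩) with ⟨j, w⟩ | ⟨j, w⟩
    · rw [h3] at h2
      have h4 : 2 * (@Fintype.equivFin _ Y.fin j).1 = 2 * (@Fintype.equivFin _ Y.fin i).1 := h2
      have h5 : @Fintype.equivFin _ Y.fin j = @Fintype.equivFin _ Y.fin i := by
        ext
        omega
      have h6 : j = i := (@Fintype.equivFin _ Y.fin).injective h5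
      subst h6
      exact ⟨w, rfl⟩
    · exfalso
      rw [h3] at h2
      have h4 : 2 * (@Fintype.equivFin _ Y.fin j).1 + 1 = 2 * (@Fintype.equivFin _ Y.fin i).1 := h2
      omega
  have h1' : ∀ i (z : G ⧸ Y.cov i), ∃ w : G ⧸ Y.cov i, h (.inr ⟨i, z⟩) = .inr ⟨i, w⟩ := by
    intro i z
    have h2 := Y.tp_h h hh (.inr ⟨i, z⟩)
    rcases h3 : h (.inr ⟨i, z⟩) with ⟨j, w⟩ | ⟨j, w⟩
    · exfalso
      rw [h3] at h2
      have h4 : 2 * (@Fintype.equivFin _ Y.fin j).1 = 2 * (@Fintype.equivFin _ Y.fin i).1 + 1 := h2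
      omega
    · rw [h3] at h2
      have h4 : 2 * (@Fintype.equivFin _ Y.fin j).1 + 1 =
        2 * (@Fintype.equivFin _ Y.fin i).1 + 1 := h2
      have h5 : @Fintype.equivFin _ Y.fin j = @Fintype.equivFin _ Y.fin i := by
        ext
        omega
      have h6 : j = i := (@Fintype.equivFin _ Y.fin).injective h5
      subst h6
      exact ⟨w, rfl⟩
  choose f hf using h1
  choose f' hf' using h1'
  have inj : ∀ i, Function.Injective (f i) := by
    intro i z z' e
    have : h (.inl ⟨i, z⟩) = h (.inl ⟨i, z'⟩) := by rw [hf, hf, e]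
    have := h.injective this
    simpa using this
  have inj' : ∀ i, Function.Injective (f' i) := by
    intro i z z' e
    have : h (.inr ⟨i, z⟩) = h (.inr ⟨i, z'⟩) := by rw [hf', hf', e]
    have := h.injective this
    simpa using this
  exact ⟨fun i => Equiv.ofBijective _ (Finite.injective_iff_bijective.1 (inj i)),
    fun i => Equiv.ofBijective _ (Finite.injective_iff_bijective.1 (inj' i)), hf, hf'⟩

/-- **Pairs.** The automorphism moves every pair of nodes of the system inside its `G`-orbit. -/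
theorem pairs {f : ∀ i, Equiv.Perm (G ⧸ Y.sub i)} {f' : ∀ i, Equiv.Perm (G ⧸ Y.cov i)}
    (hf : ∀ i z, h (.inl ⟨i, z⟩) = .inl ⟨i, f i z⟩)
    (hf' : ∀ i z, h (.inr ⟨i, z⟩) = .inr ⟨i, f' i z⟩) (i j : Y.I) (z : G ⧸ Y.sub i)
    (w : G ⧸ Y.sub j) : ∃ u : G, u • z = f i z ∧ u • w = f j w := by
  classical
  -- the parent maps
  have hP : ∀ i z, prj (Y.le_up i) (f i z) = f (Y.up i) (prj (Y.le_up i) z) := by
    intro i z
    have h1 := (hh (.inl 1) (.inl ⟨i, z⟩) (.inl ⟨Y.up i, prj (Y.le_up i) z⟩)).2 rfl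
    rw [hf, hf] at h1
    have h2 : (Sum.inl ⟨Y.up i, f (Y.up i) (prj (Y.le_up i) z)⟩ : Y.N) =
      Sum.inl ⟨Y.up i, prj (Y.le_up i) (f i z)⟩ := h1
    have h3 := Sum.inl.inj h2
    have h4 := eq_of_heq (Sigma.mk.inj h3).2
    exact h4.symm
  have hP' : ∀ i z, prj (Y.le_cov i) (f' i z) = f i (prj (Y.le_cov i) z) := by
    intro i z
    have h1 := (hh (.inl 1) (.inr ⟨i, z⟩) (.inl ⟨i, prj (Y.le_cov i) z⟩)).2 rfl
    rw [hf, hf'] at h1
    have h2 : (Sum.inl ⟨i, f i (prj (Y.le_cov i) z)⟩ : Y.N) =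
      Sum.inl ⟨i, prj (Y.le_cov i) (f' i z)⟩ := h1
    have h3 := Sum.inl.inj h2
    have h4 := eq_of_heq (Sigma.mk.inj h3).2
    exact h4.symm
  -- the relations on the coverings
  have hT : ∀ i k z w, rl (Y.cov i) (Y.T i k) (f' i z) (f' i w) ↔ rl (Y.cov i) (Y.T i k) z w := by
    intro i k z w
    rw [← Y.rels_rl, ← Y.rels_rl, ← hf', ← hf']
    exact hh _ _ _
  -- the marked sets
  have hR : ∀ i j k z w, Y.RR i j k (f' i z) (f j w) ↔ Y.RR i j k z w := by
    have e : ∀ i j k (z : G ⧸ Y.cov i) (w : G ⧸ Y.sub j),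
        Y.rels (.inr (.inr k)) (.inr ⟨i, z⟩) (.inl ⟨j, w⟩) ↔ Y.RR i j k z w := by
      intro i j k z w
      constructor
      · rintro ⟨i', j', z', w', h1, h2, h3⟩
        obtain ⟨h6, h7⟩ := Sigma.mk.inj (Sum.inr.inj h1)
        obtain ⟨h8, h9⟩ := Sigma.mk.inj (Sum.inl.inj h2)
        subst h6
        subst h8
        obtain rfl := eq_of_heq h7
        obtain rfl := eq_of_heq h9
        exact h3
      · intro h3
        exact ⟨i, j, z, w, rfl, rfl, h3⟩
    intro i j k z w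
    rw [← e, ← e, ← hf', ← hf]
    exact hh _ _ _
  -- downward induction
  have main : ∀ A : Subgroup G, ∀ i, Y.sub i = A → ∀ j (z : G ⧸ Y.sub i) (w : G ⧸ Y.sub j),
      ∃ u : G, u • z = f i z ∧ u • w = f j w := by
    intro A
    induction A using WellFoundedGT.induction with
    | ind A ih =>
      intro i hi j z w
      by_cases htop : Y.sub i = ⊤
      · obtain ⟨u, hu⟩ := MulAction.exists_smul_eq G w (f j w)
        refine ⟨u, ?_, hu⟩
        obtain ⟨a, ha⟩ := QuotientGroup.mk_surjective (u • z)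
        obtain ⟨a', ha'⟩ := QuotientGroup.mk_surjective (f i z)
        rw [← ha, ← ha', QuotientGroup.eq, htop]
        trivial
      · have hlt := Y.lt_up i htop
        obtain ⟨u0, hu1, hu2⟩ := ih (Y.sub (Y.up i)) (hi ▸ hlt) (Y.up i) rfl j
          (prj (Y.le_up i) z) w
        obtain ⟨g1, hg1⟩ := Y.exists_rep (Y.up i) j (prj (Y.le_up i) z, w)
        set r := Y.rep (Y.up i) j (prj (Y.le_up i) z, w) with hr
        have hrr : Y.rep (Y.up i) j r = r := by
          conv_lhs => rw [← hg1, Y.rep_smul]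
        have hra : g1 • prj (Y.le_up i) z = r.1 := congrArg Prod.fst hg1
        have hrb : g1 • w = r.2 := congrArg Prod.snd hg1
        set K := MulAction.stabilizer G r with hK
        have hKa : ∀ g ∈ K, g • r.1 = r.1 := by
          intro g hg
          have := MulAction.mem_stabilizer_iff.1 hg
          exact congrArg Prod.fst this
        have hKb : ∀ g ∈ K, g • r.2 = r.2 := by
          intro g hg
          have := MulAction.mem_stabilizer_iff.1 hg
          exact congrArg Prod.snd this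
        -- the conjugated permutations
        let F : Equiv.Perm (G ⧸ Y.sub i) :=
          ((MulAction.toPerm g1⁻¹).trans (f i)).trans (MulAction.toPerm (g1 * u0⁻¹))
        let F' : Equiv.Perm (G ⧸ Y.cov i) :=
          ((MulAction.toPerm g1⁻¹).trans (f' i)).trans (MulAction.toPerm (g1 * u0⁻¹))
        have hF : ∀ x, F x = (g1 * u0⁻¹) • f i (g1⁻¹ • x) := fun _ => rfl
        have hF' : ∀ x, F' x = (g1 * u0⁻¹) • f' i (g1⁻¹ • x) := fun _ => rfl
        have hfa : ∀ x, prj (Y.le_up i) x = r.1 → prj (Y.le_up i) (F x) = r.1 := by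
          intro x hx
          rw [hF, prj_smul, hP, prj_smul, hx, ← hra, inv_smul_smul, ← hu1, mul_smul,
            inv_smul_smul]
        -- the marked sets
        have hmark : ∀ k (x : G ⧸ Y.cov i) (g2 : G) (w' : G ⧸ Y.sub j),
            g2 • (prj (Y.le_up i) (prj (Y.le_cov i) x), w') = r →
            (Y.RR i j k x w' ↔ ∃ g ∈ K, g • (g2 • x) ∈ Y.S i r.1 K k) := by
          intro k x g2 w' hg2
          have hrep : Y.rep (Y.up i) j (prj (Y.le_up i) (prj (Y.le_cov i) x), w') = r := by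
            rw [← Y.rep_smul (Y.up i) j g2, hg2, hrr]
          unfold RR
          rw [hrep]
          constructor
          · rintro ⟨g, h1, h2⟩
            refine ⟨g * g2⁻¹, ?_, ?_⟩
            · rw [hK, MulAction.mem_stabilizer_iff]
              conv_lhs => rw [← hg2]
              rw [mul_smul, inv_smul_smul, h1]
            · rw [mul_smul, inv_smul_smul]
              exact h2
          · rintro ⟨g, h1, h2⟩
            refine ⟨g * g2, ?_, ?_⟩
            · rw [mul_smul, hg2]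
              exact MulAction.mem_stabilizer_iff.1 h1
            · rw [mul_smul]
              exact h2
        have key := Y.loc i htop r.1 K hKa F F' (by
            intro x
            rw [hF, hF', prj_smul, hP', prj_smul]) (by
            intro k x y
            rw [hF', hF', rl_smul, hT, rl_smul]) hfa (by
            intro k x hx
            have h1 := hmark k (g1⁻¹ • x) g1 w (by
              rw [prj_smul, prj_smul, hx, ← hra, inv_smul_smul]
              exact hg1)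
            have h2 := hmark k (f' i (g1⁻¹ • x)) (g1 * u0⁻¹) (f j w) (by
              rw [hP', hP, prj_smul, prj_smul, hx, ← hra, inv_smul_smul, ← hu1, ← hu2]
              show ((g1 * u0⁻¹) • u0 • _, (g1 * u0⁻¹) • u0 • _) = r
              rw [mul_smul, inv_smul_smul, mul_smul, inv_smul_smul]
              exact hg1)
            rw [smul_inv_smul] at h1
            rw [← h1, hF', ← h2]
            exact hR i j k _ _)
        obtain ⟨g, hg, hg2⟩ := key (g1 • z) (by rw [prj_smul]; exact hra)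
        rw [hF, inv_smul_smul] at hg2
        refine ⟨u0 * g1⁻¹ * g * g1, ?_, ?_⟩
        · rw [mul_smul, mul_smul, ← hg2, ← mul_smul]
          have e : u0 * g1⁻¹ * (g1 * u0⁻¹) = 1 := by group
          rw [e, one_smul]
        · rw [mul_smul, mul_smul, hrb, hKb g hg, ← hrb, ← hu2, mul_smul, inv_smul_smul]
  exact main _ i rfl j z w

omit hh in
/-- **The automorphisms of the structure.** -/
theorem full (hh : ∀ k x y, Y.rels k (h x) (h y) ↔ Y.rels k x y) {Ω : Type} [MulAction G Ω]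
    [Finite Ω] (ι : Ω → Σ i, G ⧸ Y.sub i) (hι : ∀ (g : G) ω, ι (g • ω) = g • ι ω)
    (hst : ∀ (g : G) ω, g • ι ω = ι ω → g • ω = ω)
    (hgen : ∀ x : Σ i, G ⧸ Y.sub i, ∃ (ω : Ω) (l : ℕ), (Y.pS^[l]) (ι ω) = x)
    (hclosed : ∀ σ : Equiv.Perm Ω, (∀ x y, ∃ g : G, g • x = σ x ∧ g • y = σ y) →
      ∃ g : G, ∀ x, σ x = g • x) : ∃ g : G, ∀ x : Y.N, h x = g • x := by
  obtain ⟨f, f', hf, hf'⟩ := Y.exists_maps h hh
  have hpair : ∀ p q : Σ i, G ⧸ Y.sub i, ∃ u : G, h (.inl p) = .inl (u • p) ∧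
      h (.inl q) = .inl (u • q) := by
    rintro ⟨i, z⟩ ⟨j, w⟩
    obtain ⟨u, h1, h2⟩ := Y.pairs h hh hf hf' i j z w
    refine ⟨u, ?_, ?_⟩
    · rw [hf, ← h1]
      rfl
    · rw [hf, ← h2]
      rfl
  choose u hu using fun ω => hpair (ι ω) (ι ω)
  have huniq : ∀ (v : G) ω, h (.inl (ι ω)) = .inl (v • ι ω) → v • ω = u ω • ω := by
    intro v ω h1
    rw [(hu ω).1] at h1
    have h2 := Sum.inl.inj h1
    have h3 : ((u ω)⁻¹ * v) • ι ω = ι ω := by
      rw [mul_smul, ← h2, inv_smul_smul]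
    have h4 := hst _ _ h3
    rw [mul_smul, inv_smul_eq_iff] at h4
    exact h4
  have hσp : ∀ x y : Ω, ∃ g : G, g • x = u x • x ∧ g • y = u y • y := by
    intro x y
    obtain ⟨v, h1, h2⟩ := hpair (ι x) (ι y)
    exact ⟨v, huniq v x h1, huniq v y h2⟩
  have hinj : Function.Injective fun ω : Ω => u ω • ω := by
    intro x y hxy
    obtain ⟨g, h1, h2⟩ := hσp x y
    have h3 : u x • x = u y • y := hxy
    rw [← h1, ← h2] at h3
    exact MulAction.injective g h3
  obtain ⟨g, hg⟩ := hclosed (Equiv.ofBijective _ (Finite.injective_iff_bijective.1 hinj)) hσp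
  have hg' : ∀ ω : Ω, u ω • ω = g • ω := hg
  have hleaf : ∀ ω, h (.inl (ι ω)) = .inl (g • ι ω) := by
    intro ω
    rw [(hu ω).1]
    congr 1
    have h1 : (g⁻¹ * u ω) • ω = ω := by
      rw [mul_smul, hg', inv_smul_smul]
    have h2 := hι (g⁻¹ * u ω) ω
    rw [h1, mul_smul] at h2
    rw [eq_inv_smul_iff] at h2
    exact h2.symm
  have hup : ∀ x : Σ i, G ⧸ Y.sub i, h (.inl x) = .inl (g • x) →
      h (.inl (Y.pS x)) = .inl (g • Y.pS x) := by
    intro x hx
    have h1 : h (.inl (Y.pS x)) = Y.pN (h (.inl x)) :=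
      (hh (.inl 1) (.inl x) (.inl (Y.pS x))).2 rfl
    rw [h1, hx]
    exact Y.pN_smul g (.inl x)
  have hall : ∀ x : Σ i, G ⧸ Y.sub i, h (.inl x) = .inl (g • x) := by
    intro x
    obtain ⟨ω, l, rfl⟩ := hgen x
    induction l with
    | zero => exact hleaf ω
    | succ l ih =>
      rw [Function.iterate_succ_apply']
      exact hup _ ih
  refine ⟨g, ?_⟩
  rintro (x | ⟨i, z⟩)
  · exact hall x
  · -- the coverings
    have hP' : ∀ z, prj (Y.le_cov i) (f' i z) = g • prj (Y.le_cov i) z := by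
      intro z
      have h1 : h (.inl ⟨i, prj (Y.le_cov i) z⟩) = Y.pN (h (.inr ⟨i, z⟩)) :=
        (hh (.inl 1) (.inr ⟨i, z⟩) (.inl ⟨i, prj (Y.le_cov i) z⟩)).2 rfl
      rw [hall, hf'] at h1
      have h2 : (Sum.inl ⟨i, g • prj (Y.le_cov i) z⟩ : Y.N) =
        Sum.inl ⟨i, prj (Y.le_cov i) (f' i z)⟩ := h1
      have h3 := Sum.inl.inj h2
      exact (eq_of_heq (Sigma.mk.inj h3).2).symm
    have key := Y.pin i ((f' i).trans (MulAction.toPerm g⁻¹)) (by
      intro x
      show prj (Y.le_cov i) (g⁻¹ • f' i x) = _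
      rw [prj_smul, hP', inv_smul_smul]) (by
      intro k x y
      show rl (Y.cov i) (Y.T i k) (g⁻¹ • f' i x) (g⁻¹ • f' i y) ↔ _
      rw [rl_smul, ← Y.rels_rl, ← Y.rels_rl, ← hf', ← hf']
      exact hh _ _ _) z
    have key' : g⁻¹ • f' i z = z := key
    rw [inv_smul_eq_iff] at key'
    rw [hf', key']
    rfl

end auto

/-- **The graph of a system.** -/
theorem graph [Finite G] {Ω : Type} [MulAction G Ω] [Finite Ω] [Nonempty Ω]
    (ι : Ω → Σ i, G ⧸ Y.sub i) (hι : ∀ (g : G) ω, ι (g • ω) = g • ι ω)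
    (hst : ∀ (g : G) ω, g • ι ω = ι ω → g • ω = ω)
    (hgen : ∀ x : Σ i, G ⧸ Y.sub i, ∃ (ω : Ω) (l : ℕ), (Y.pS^[l]) (ι ω) = x)
    (hfaith : ∀ g : G, (∀ ω : Ω, g • ω = ω) → g = 1)
    (hclosed : ∀ σ : Equiv.Perm Ω, (∀ x y, ∃ g : G, g • x = σ x ∧ g • y = σ y) →
      ∃ g : G, ∀ x, σ x = g • x) :
    ∃ (m : ℕ) (Γ : SimpleGraph (Fin m)) (ψ : G →* Equiv.Perm (Fin m)),
      Function.Injective ⇑ψ ∧
      (∀ σ : Equiv.Perm (Fin m),
        (∀ x y : Fin m, Γ.Adj (σ x) (σ y) ↔ Γ.Adj x y) ↔ σ ∈ Set.range ⇑ψ) ∧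
      m = (2 * b + 4) * (Nat.card Y.N + 1) + 2 := by
  have := Y.fin
  have : ∀ i, Finite (G ⧸ Y.sub i) := fun i => inferInstance
  have : ∀ i, Finite (G ⧸ Y.cov i) := fun i => inferInstance
  have : Finite Y.N := inferInstance
  obtain ⟨ω₀⟩ := ‹Nonempty Ω›
  have : Nonempty Y.N := ⟨.inl (ι ω₀)⟩
  obtain ⟨m, Γ, ψ, h1, h2, h3⟩ := gadget' (G := G) Y.rels (by
    intro g hg
    apply hfaith
    intro ω
    apply hst
    exact Sum.inl.inj (hg (.inl (ι ω)))) (fun g k x y => Y.rels_smul g k x y)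
    (fun h hh => Y.full h hh ι hι hst hgen hclosed)
  refine ⟨m, Γ, ψ, h1, h2, ?_⟩
  rw [h3]
  simp only [Fintype.card_sum, Fintype.card_fin]
  ring

end Sys

end Pool.Agent.VG
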